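import Pool.Agent.H69.CT.Bad
import Pool.Agent.H69.CS.Shi

/-!
[H69 CT SHI] Cyclic numbers in short intervals: `(x, x+y]` contains at least `c5 y / log x` of them if `y ≥ C5 x ^ (5/12) (log x)^2`.
-/

namespace Pool.Agent.H69.CT

open Finset Classical Filter

open Pool.Agent.H69.CP (rough_block Rough)
open Pool.Agent.H69

theorem ev_log (k : ℕ) (e c : ℝ) (he : 0 < e) (hc : 0 < c) :
    ∀ᶠ x : ℕ in atTop, Real.log x ^ k ≤ c * (x : ℝ) ^ e := by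
  have t1 : Tendsto (fun x : ℕ => (x : ℝ)) atTop atTop := tendsto_natCast_atTop_atTop
  have h := (isLittleO_log_rpow_rpow_atTop (k : ℝ) he).def hc
  filter_upwards [t1.eventually h, eventually_ge_atTop 3] with x hx hx3
  have hx3' : (3 : ℝ) ≤ x := by exact_mod_cast hx3
  have hl : 0 ≤ Real.log x := Real.log_nonneg (by linarith)
  rw [Real.norm_eq_abs, Real.norm_eq_abs, abs_of_nonneg (by positivity), abs_of_nonneg (by positivity)] at hx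
  rw [← Real.rpow_natCast]
  exact hx

theorem cyc_low : ∃ c5 C5 : ℝ, 0 < c5 ∧ 1 ≤ C5 ∧ ∃ x0 : ℕ, 20 ≤ x0 ∧ ∀ x y : ℕ, x0 ≤ x →
    C5 * (x : ℝ) ^ (5 / 12 : ℝ) * Real.log x ^ 2 ≤ y → (y : ℝ) ≤ (x : ℝ) ^ (1 / 2 : ℝ) →
    c5 * y / Real.log x ≤ (((Ioc x (x + y)).filter CY.IsCyclicNumber).card : ℝ) := by
  obtain ⟨a, c1, ha, ha1, hc1, h0, h03, hr⟩ := rough_block
  have t1 : Tendsto (fun x : ℕ => (x : ℝ)) atTop atTop := tendsto_natCast_atTop_atTop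
  have e1 := ev_log 3 (5 * a / 12) (c1 / 155760) (by positivity) (by positivity)
  have e3 := ev_log 4 (1 / 4) (c1 / 166200) (by norm_num) (by positivity)
  have e4 := ev_log 2 (1 / 6) (1 / 20736) (by norm_num) (by norm_num)
  have e2 : ∀ᶠ x : ℕ in atTop, (h0 : ℝ) ≤ (x : ℝ) ^ (5 / 12 : ℝ) :=
    ((tendsto_rpow_atTop (show (0 : ℝ) < 5 / 12 by norm_num)).comp t1).eventually_ge_atTop _
  have e5 : ∀ᶠ x : ℕ in atTop, (1000 : ℝ) ≤ (x : ℝ) ^ (1 / 12 : ℝ) :=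
    ((tendsto_rpow_atTop (show (0 : ℝ) < 1 / 12 by norm_num)).comp t1).eventually_ge_atTop _
  obtain ⟨x1, hx1⟩ := eventually_atTop.1 ((((e1.and e2).and e3).and e4).and e5)
  refine ⟨c1 / 2, 1 + 3552 / c1, by positivity, ?_, max x1 100, by have := le_max_right x1 100; omega, ?_⟩
  · have : 0 < 3552 / c1 := by positivity
    linarith
  intro x y hx hy hyx'
  obtain ⟨⟨⟨⟨g1, g2⟩, g3⟩, g4⟩, g5⟩ := hx1 x (le_trans (le_max_left _ _) hx)
  have hx100 : 100 ≤ x := le_trans (le_max_right _ _) hx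
  have hxR : (100 : ℝ) ≤ x := by exact_mod_cast hx100
  have hx0 : (0 : ℝ) < x := by linarith
  have hx1' : (1 : ℝ) ≤ x := by linarith
  set L := Real.log x with hL
  have hL3 : 3 ≤ L := by
    rw [hL, Real.le_log_iff_exp_le hx0]
    have h1 : Real.exp 3 = Real.exp 1 ^ 3 := by rw [← Real.exp_nat_mul]; norm_num
    have h2 := Real.exp_one_lt_d9
    rw [h1]
    have h3 : Real.exp 1 ^ 3 ≤ 2.7182818286 ^ 3 := pow_le_pow_left₀ (Real.exp_pos _).le h2.le 3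
    have h4 : (2.7182818286 : ℝ) ^ 3 ≤ 100 := by norm_num
    linarith
  -- everything in terms of t = x^(1/12)
  obtain ⟨t, ht⟩ : ∃ t : ℝ, t = (x : ℝ) ^ (1 / 12 : ℝ) := ⟨_, rfl⟩
  rw [← ht] at g5
  have ht0 : 0 < t := by linarith
  have ht1 : 1 ≤ t := by linarith
  have tp : ∀ (k : ℕ) (e : ℝ), e = k / 12 → (x : ℝ) ^ e = t ^ k := by
    intro k e he
    rw [ht, ← Real.rpow_natCast, ← Real.rpow_mul hx0.le, he]
    congr 1
    ring
  have hZ : (x : ℝ) ^ (5 / 12 : ℝ) = t ^ 5 := tp 5 _ (by norm_num)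
  have hV : (x : ℝ) ^ (1 / 4 : ℝ) = t ^ 3 := tp 3 _ (by norm_num)
  have h13 : (x : ℝ) ^ (1 / 3 : ℝ) = t ^ 4 := tp 4 _ (by norm_num)
  have h12 : (x : ℝ) ^ (1 / 2 : ℝ) = t ^ 6 := tp 6 _ (by norm_num)
  have h23 : (x : ℝ) ^ (2 / 3 : ℝ) = t ^ 8 := tp 8 _ (by norm_num)
  have h16 : (x : ℝ) ^ (1 / 6 : ℝ) = t ^ 2 := tp 2 _ (by norm_num)
  have h1 : (x : ℝ) = t ^ 12 := by
    have := tp 12 1 (by norm_num)
    rwa [Real.rpow_one] at this
  rw [hZ] at g2 hy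
  rw [hV] at g3
  rw [h16] at g4
  rw [h12] at hyx'
  have ht5 : 1 ≤ t ^ 5 := one_le_pow₀ ht1
  have hyx : y ≤ x := by
    have h2 : (y : ℝ) ≤ x := by
      rw [h1]
      exact hyx'.trans (pow_le_pow_right₀ ht1 (by norm_num))
    exact_mod_cast h2
  have hy1 : t ^ 5 ≤ y := by
    refine le_trans ?_ hy
    have h1 : 1 ≤ 1 + 3552 / c1 := by
      have : 0 < 3552 / c1 := by positivity
      linarith
    have h2 : 1 ≤ L ^ 2 := by nlinarith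
    calc t ^ 5 = 1 * t ^ 5 * 1 := by ring
      _ ≤ (1 + 3552 / c1) * t ^ 5 * L ^ 2 := by gcongr
  have hy2 : 3552 / c1 * t ^ 5 * L ^ 2 ≤ y := by
    refine le_trans ?_ hy
    have : 0 ≤ t ^ 5 * L ^ 2 := by positivity
    nlinarith
  have hyR : (1 : ℝ) ≤ y := ht5.trans hy1
  have hy0 : (0 : ℝ) < y := by linarith
  have hyh : h0 ≤ y := by exact_mod_cast g2.trans hy1
  have hlogy0 : 0 < Real.log y := by
    apply Real.log_pos
    have : (3 : ℝ) ≤ y := by exact_mod_cast h03.trans hyh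
    linarith
  have hlogy : Real.log y ≤ L := Real.log_le_log hy0 (by exact_mod_cast hyx)
  -- rough numbers
  have hR := hr y hyh x
  have hR2 : c1 * y / L ≤ (((Ioc x (x + y)).filter fun m => Rough ((y : ℝ) ^ a) m).card : ℝ) := by
    refine le_trans ?_ hR
    gcongr
  -- bad numbers
  have hw1 : (1 : ℝ) ≤ (y : ℝ) ^ a := Real.one_le_rpow hyR ha.le
  obtain ⟨P0, hP0⟩ : ∃ P : ℕ, P = ⌈t ^ 3⌉₊ := ⟨_, rfl⟩
  obtain ⟨P1, hP1⟩ : ∃ P : ℕ, P = ⌊t ^ 4⌋₊ := ⟨_, rfl⟩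
  have ht3 : 1 ≤ t ^ 3 := one_le_pow₀ ht1
  have ht4 : 1 ≤ t ^ 4 := one_le_pow₀ ht1
  have a1 : t ^ 3 ≤ P0 := by rw [hP0]; exact Nat.le_ceil _
  have a2 : (P0 : ℝ) ≤ 2 * t ^ 3 := by
    have := (Nat.ceil_lt_add_one (show 0 ≤ t ^ 3 by positivity)).le
    rw [← hP0] at this
    linarith
  have a3 : (P1 : ℝ) ≤ t ^ 4 := by rw [hP1]; exact Nat.floor_le (by positivity)
  have a4 : t ^ 4 ≤ 2 * P1 := by
    have h1 := Nat.lt_floor_add_one (t ^ 4)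
    rw [← hP1] at h1
    have h2 : 1 ≤ P1 := by rw [hP1]; exact Nat.le_floor (by exact_mod_cast ht4)
    have h2 : (1 : ℝ) ≤ P1 := by exact_mod_cast h2
    linarith
  have hP01 : 1 ≤ P0 := by
    have : (1 : ℝ) ≤ P0 := ht3.trans a1
    exact_mod_cast this
  have hP0R : (0 : ℝ) < P0 := by exact_mod_cast hP01
  have hPP : P0 ≤ P1 := by
    have h2 : (P0 : ℝ) ≤ P1 := by
      have h3 : 4 * t ^ 3 ≤ t ^ 4 := by
        calc 4 * t ^ 3 ≤ t * t ^ 3 := by gcongr; linarith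
          _ = t ^ 4 := by ring
      linarith
    exact_mod_cast h2
  have hP1R : (0 : ℝ) < P1 := by
    have : (P0 : ℝ) ≤ P1 := by exact_mod_cast hPP
    linarith
  obtain ⟨S, hS⟩ : ∃ S : ℕ, S = Nat.sqrt (2 * x) := ⟨_, rfl⟩
  have hS3 : 3 ≤ S := by
    rw [hS, Nat.le_sqrt]; omega
  have hS2x : S * S ≤ 2 * x := by rw [hS]; exact Nat.sqrt_le _
  have hSle : (S : ℝ) ≤ 3 / 2 * t ^ 6 := by
    have h2 : (S : ℝ) ^ 2 ≤ (3 / 2 * t ^ 6) ^ 2 := by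
      have h3 : (S : ℝ) * S ≤ 2 * x := by exact_mod_cast hS2x
      have h4 : (3 / 2 * t ^ 6) ^ 2 = 9 / 4 * x := by rw [h1]; ring
      rw [h4, sq]
      linarith
    exact le_of_sq_le_sq h2 (by positivity)
  have hP1x : P1 * P1 ≤ 2 * x := by
    have h2 : (P1 : ℝ) * P1 ≤ 2 * x := by
      calc (P1 : ℝ) * P1 ≤ t ^ 4 * t ^ 4 := by gcongr
        _ = t ^ 8 := by ring
        _ ≤ t ^ 12 := pow_le_pow_right₀ ht1 (by norm_num)
        _ = x := h1.symm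
        _ ≤ 2 * x := by linarith
    exact_mod_cast h2
  have hP1S : P1 ≤ S := by rw [hS, Nat.le_sqrt]; exact hP1x
  have hPx : P0 ^ 2 ≤ x := by
    have h2 : (P0 : ℝ) ^ 2 ≤ x := by
      calc (P0 : ℝ) ^ 2 ≤ (2 * t ^ 3) ^ 2 := pow_le_pow_left₀ hP0R.le a2 2
        _ = 4 * t ^ 6 := by ring
        _ ≤ t ^ 6 * t ^ 6 := by
          have h3 : t ≤ t ^ 6 := by
            calc t = t ^ 1 := (pow_one t).symm
              _ ≤ t ^ 6 := pow_le_pow_right₀ ht1 (by norm_num)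
          gcongr
          linarith
        _ = x := by rw [h1]; ring
    exact_mod_cast h2
  have hP4 : x ≤ P0 ^ 4 := by
    have h2 : (x : ℝ) ≤ (P0 : ℝ) ^ 4 := by
      calc (x : ℝ) = (t ^ 3) ^ 4 := by rw [h1]; ring
        _ ≤ (P0 : ℝ) ^ 4 := pow_le_pow_left₀ (by positivity) a1 4
    exact_mod_cast h2
  have hyP : y ≤ P0 ^ 2 := by
    have h2 : (y : ℝ) ≤ (P0 : ℝ) ^ 2 := by
      calc (y : ℝ) ≤ t ^ 6 := hyx'
        _ = (t ^ 3) ^ 2 := by ring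
        _ ≤ (P0 : ℝ) ^ 2 := pow_le_pow_left₀ (by positivity) a1 2
    exact_mod_cast h2
  have hsm : 200 * ((y + S) * P1) ≤ x := by
    have h2 : 200 * (((y : ℝ) + S) * P1) ≤ x := by
      calc 200 * (((y : ℝ) + S) * P1) ≤ 200 * ((t ^ 6 + 3 / 2 * t ^ 6) * t ^ 4) := by gcongr
        _ = 500 * t ^ 10 := by ring
        _ ≤ (t * t) * t ^ 10 := by
          gcongr
          nlinarith
        _ = x := by rw [h1]; ring
    exact_mod_cast h2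
  have hB := bad_short5 x y P0 P1 S ((y : ℝ) ^ a) hw1 (by omega) hyx hS hS3 hP01 hPP hP1S hPx hP4 hyP hsm
  have hSx : S ≤ x := by nlinarith
  have hlogS0 : 0 ≤ Real.log S := Real.log_nonneg (by exact_mod_cast (by omega : 1 ≤ S))
  have hlogS : Real.log S ≤ L := by
    apply Real.log_le_log (by exact_mod_cast (by omega : 0 < S))
    exact_mod_cast hSx
  have hΛ : 1 + Real.log S ≤ 2 * L := by linarith
  have hl2x : 1 + Real.log (2 * x) ≤ 2 * L := by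
    rw [Real.log_mul (by norm_num) hx0.ne']
    have := Real.log_two_lt_d9
    linarith
  have hl2x0 : 0 ≤ 1 + Real.log (2 * x) := by
    have := Real.log_nonneg (show (1 : ℝ) ≤ 2 * x by linarith)
    linarith
  have hya : (155760 / c1) * L ^ 3 ≤ (y : ℝ) ^ a := by
    have h1 : (x : ℝ) ^ (5 * a / 12) = (t ^ 5) ^ a := by
      rw [← hZ, ← Real.rpow_mul hx0.le]
      congr 1
      ring
    have h2 : (t ^ 5) ^ a ≤ (y : ℝ) ^ a := Real.rpow_le_rpow (by linarith) hy1 ha.le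
    rw [h1] at g1
    have h3 : (155760 / c1) * L ^ 3 ≤ (155760 / c1) * (c1 / 155760 * (t ^ 5) ^ a) := by gcongr
    have h4 : (155760 / c1) * (c1 / 155760 * (t ^ 5) ^ a) = (t ^ 5) ^ a := by field_simp
    linarith
  have f1 : 3245 * (1 + Real.log S) ^ 2 * (2 * y / (y : ℝ) ^ a) ≤ c1 / 6 * (y / L) := by
    have h1 : 3245 * (1 + Real.log S) ^ 2 * (2 * y / (y : ℝ) ^ a) ≤ 3245 * (2 * L) ^ 2 * (2 * y / (y : ℝ) ^ a) := by
      gcongr
    have h2 : 3245 * (2 * L) ^ 2 * (2 * y / (y : ℝ) ^ a) ≤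
        3245 * (2 * L) ^ 2 * (2 * y / ((155760 / c1) * L ^ 3)) := by
      gcongr
    have h3 : 3245 * (2 * L) ^ 2 * (2 * y / ((155760 / c1) * L ^ 3)) = c1 / 6 * (y / L) := by
      field_simp
      norm_num
    linarith
  have hyV : 0 ≤ (y : ℝ) / t ^ 3 := by positivity
  have f2 : 27700 * (y / t ^ 3) * L ^ 3 ≤ c1 / 6 * (y / L) := by
    have h1 : (166200 / c1) * L ^ 4 ≤ t ^ 3 := by
      have h3 : (166200 / c1) * L ^ 4 ≤ (166200 / c1) * (c1 / 166200 * t ^ 3) := by gcongr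
      have h4 : (166200 / c1) * (c1 / 166200 * t ^ 3) = t ^ 3 := by field_simp
      linarith
    have h2 : 27700 * (y / t ^ 3) * L ^ 3 ≤ 27700 * (y / ((166200 / c1) * L ^ 4)) * L ^ 3 := by gcongr
    have h3 : 27700 * (y / ((166200 / c1) * L ^ 4)) * L ^ 3 = c1 / 6 * (y / L) := by
      field_simp
      norm_num
    linarith
  have f3 : 592 * L * t ^ 5 ≤ c1 / 6 * (y / L) := by
    have h1 : c1 / 6 * ((3552 / c1 * t ^ 5 * L ^ 2) / L) ≤ c1 / 6 * (y / L) := by gcongr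
    have h2 : c1 / 6 * ((3552 / c1 * t ^ 5 * L ^ 2) / L) = 592 * L * t ^ 5 := by
      field_simp
      norm_num
    linarith
  have t45 : t ^ 4 ≤ t ^ 5 := pow_le_pow_right₀ ht1 (by norm_num)
  have t35 : 2 * t ^ 3 ≤ t ^ 5 := by
    calc 2 * t ^ 3 ≤ (t * t) * t ^ 3 := by
          gcongr
          nlinarith
      _ = t ^ 5 := by ring
  have hL2 : L ≤ L ^ 2 := by nlinarith
  have hLL : L ^ 2 ≤ L ^ 3 := pow_le_pow_right₀ (by linarith) (by norm_num)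
  have hL1 : 1 ≤ L ^ 3 := one_le_pow₀ (by linarith)
  have hyP0 : (y : ℝ) / P0 ≤ y / t ^ 3 := by gcongr
  have k1 : 108 * (1 + Real.log S) * ((x : ℝ) ^ (1 / 3 : ℝ) * (P0 : ℝ) ^ (1 / 3 : ℝ)) ≤ 432 * L * t ^ 5 := by
    have h2 : (P0 : ℝ) ^ (1 / 3 : ℝ) ≤ 2 * t := by
      have h3 : (P0 : ℝ) ≤ (2 * t) ^ 3 := by
        calc (P0 : ℝ) ≤ 2 * t ^ 3 := a2
          _ ≤ 8 * t ^ 3 := by
            have : 0 < t ^ 3 := by positivity
            linarith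
          _ = (2 * t) ^ 3 := by ring
      calc (P0 : ℝ) ^ (1 / 3 : ℝ) ≤ ((2 * t) ^ 3) ^ (1 / 3 : ℝ) := Real.rpow_le_rpow hP0R.le h3 (by norm_num)
        _ = 2 * t := by
          rw [← Real.rpow_natCast, ← Real.rpow_mul (by positivity)]
          norm_num
    rw [h13]
    calc 108 * (1 + Real.log S) * (t ^ 4 * (P0 : ℝ) ^ (1 / 3 : ℝ)) ≤ 108 * (2 * L) * (t ^ 4 * (2 * t)) := by gcongr
      _ = 432 * L * t ^ 5 := by ring
  have k2 : (y : ℝ) / P0 + P1 ≤ (y / t ^ 3) * L ^ 3 + t ^ 5 := by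
    have : (y : ℝ) / t ^ 3 ≤ (y / t ^ 3) * L ^ 3 := by nlinarith
    linarith
  have hSP : (S : ℝ) / P0 ≤ 3 / 2 * t ^ 3 := by
    rw [div_le_iff₀ hP0R]
    calc (S : ℝ) ≤ 3 / 2 * t ^ 6 := hSle
      _ = 3 / 2 * t ^ 3 * t ^ 3 := by ring
      _ ≤ 3 / 2 * t ^ 3 * P0 := by gcongr
  have hxP0 : (x : ℝ) ^ (2 / 3 : ℝ) / P0 ≤ t ^ 5 := by
    rw [h23, div_le_iff₀ hP0R]
    calc t ^ 8 = t ^ 5 * t ^ 3 := by ring
      _ ≤ t ^ 5 * P0 := by gcongr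
  have k3 : 2 * (1 + Real.log S) * (35 * ((x : ℝ) ^ (2 / 3 : ℝ) / P0) +
        1728 * (1 + Real.log S) * ((1 + Real.log S) * (y / P0) + S / P0)) ≤
        140 * L * t ^ 5 + 27648 * ((y / t ^ 3) * L ^ 3) + t ^ 5 := by
    have h2 : 2 * (1 + Real.log S) * (35 * ((x : ℝ) ^ (2 / 3 : ℝ) / P0) +
        1728 * (1 + Real.log S) * ((1 + Real.log S) * (y / P0) + S / P0)) ≤
        2 * (2 * L) * (35 * t ^ 5 + 1728 * (2 * L) * ((2 * L) * (y / t ^ 3) + 3 / 2 * t ^ 3)) := by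
      gcongr
    have h3 : 2 * (2 * L) * (35 * t ^ 5 + 1728 * (2 * L) * ((2 * L) * (y / t ^ 3) + 3 / 2 * t ^ 3)) =
        140 * L * t ^ 5 + 27648 * ((y / t ^ 3) * L ^ 3) + 20736 * L ^ 2 * t ^ 3 := by ring
    have h4 : 20736 * L ^ 2 * t ^ 3 ≤ t ^ 5 := by
      calc 20736 * L ^ 2 * t ^ 3 ≤ 20736 * (1 / 20736 * t ^ 2) * t ^ 3 := by gcongr
        _ = t ^ 5 := by ring
    linarith
  have hxP1 : 2 * (x : ℝ) / P1 ^ 2 ≤ 8 * t ^ 4 := by
    rw [div_le_iff₀ (by positivity)]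
    have h2 : (t ^ 4) ^ 2 ≤ (2 * P1) ^ 2 := pow_le_pow_left₀ (by positivity) a4 2
    calc 2 * (x : ℝ) = 2 * t ^ 4 * (t ^ 4) ^ 2 := by rw [h1]; ring
      _ ≤ 2 * t ^ 4 * (2 * P1) ^ 2 := by gcongr
      _ = 8 * t ^ 4 * P1 ^ 2 := by ring
  have hyP1 : (y : ℝ) / P1 ≤ 2 * (y / t ^ 3) := by
    rw [← mul_div_assoc, div_le_div_iff₀ hP1R (by positivity)]
    have h2 : t ^ 3 ≤ 2 * P1 := le_trans (pow_le_pow_right₀ ht1 (by norm_num)) a4
    nlinarith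
  have k4 : (2 * (x : ℝ) / P1 ^ 2) * (1 + Real.log (2 * x)) ≤ 16 * L * t ^ 5 := by
    calc (2 * (x : ℝ) / P1 ^ 2) * (1 + Real.log (2 * x)) ≤ (8 * t ^ 4) * (2 * L) := by gcongr
      _ = 16 * L * t ^ 4 := by ring
      _ ≤ 16 * L * t ^ 5 := by gcongr
  have k5 : (y / P1) * (1 + Real.log (2 * x)) ^ 2 ≤ 8 * ((y / t ^ 3) * L ^ 3) := by
    calc (y / P1) * (1 + Real.log (2 * x)) ^ 2 ≤ (2 * (y / t ^ 3)) * (2 * L) ^ 2 := by gcongr
      _ = 8 * ((y / t ^ 3) * L ^ 2) := by ring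
      _ ≤ 8 * ((y / t ^ 3) * L ^ 3) := by gcongr
  have k6 : (y / P1) * (1 + Real.log (2 * x)) ≤ 4 * ((y / t ^ 3) * L ^ 3) := by
    calc (y / P1) * (1 + Real.log (2 * x)) ≤ (2 * (y / t ^ 3)) * (2 * L) := by gcongr
      _ = 4 * ((y / t ^ 3) * L) := by ring
      _ ≤ 4 * ((y / t ^ 3) * L ^ 3) := by
        have : L ≤ L ^ 3 := hL2.trans hLL
        gcongr
  have k7 : 12 * t ^ 5 ≤ 4 * L * t ^ 5 := by
    have : 12 ≤ 4 * L := by linarith
    gcongr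
  have hq : 0 ≤ (y / t ^ 3) * L ^ 3 := by positivity
  have hB2 : (((Ioc x (x + y)).filter fun m => ¬ CY.IsCyclicNumber m ∧ Rough ((y : ℝ) ^ a) m).card : ℝ) ≤
      c1 / 2 * (y / L) := by
    refine hB.trans ?_
    have e : 3 * (c1 / 6 * (y / L)) = c1 / 2 * (y / L) := by ring
    have e2 : 27700 * (y / t ^ 3) * L ^ 3 = 27700 * ((y / t ^ 3) * L ^ 3) := by ring
    rw [e2] at f2
    linarith
  have hsum : (((Ioc x (x + y)).filter fun m => Rough ((y : ℝ) ^ a) m).card : ℝ) ≤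
      (((Ioc x (x + y)).filter CY.IsCyclicNumber).card : ℝ) +
      (((Ioc x (x + y)).filter fun m => ¬ CY.IsCyclicNumber m ∧ Rough ((y : ℝ) ^ a) m).card : ℝ) := by
    have h1 : (Ioc x (x + y)).filter (fun m => Rough ((y : ℝ) ^ a) m) ⊆
        (Ioc x (x + y)).filter CY.IsCyclicNumber ∪
        (Ioc x (x + y)).filter (fun m => ¬ CY.IsCyclicNumber m ∧ Rough ((y : ℝ) ^ a) m) := by
      intro m hm
      rw [mem_filter] at hm
      rw [mem_union, mem_filter, mem_filter]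
      by_cases hc : CY.IsCyclicNumber m
      · exact Or.inl ⟨hm.1, hc⟩
      · exact Or.inr ⟨hm.1, hc, hm.2⟩
    exact_mod_cast (card_le_card h1).trans (card_union_le _ _)
  have e : c1 / 2 * y / L = c1 * y / L - c1 / 2 * (y / L) := by ring
  rw [e]
  linarith

theorem cyc_short5 : ∃ c3 C3 : ℝ, 0 < c3 ∧ 1 ≤ C3 ∧ ∃ x0 : ℕ, 20 ≤ x0 ∧ ∀ x y : ℕ, x0 ≤ x →
    C3 * (x : ℝ) ^ (5 / 12 : ℝ) * Real.log x ^ 2 ≤ y → y ≤ x →
    c3 * y / Real.log x ≤ (((Ioc x (x + y)).filter CY.IsCyclicNumber).card : ℝ) := by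
  obtain ⟨c3, C3, hc3, hC3, x3, hx3, h3⟩ := CS.cyc_short3
  obtain ⟨c5, C5, hc5, hC5, x5, hx5, h5⟩ := cyc_low
  have e1 := ev_log 2 (1 / 14) (1 / C3) (by norm_num) (by positivity)
  obtain ⟨x1, hx1⟩ := eventually_atTop.1 e1
  refine ⟨min c3 c5, C5, lt_min hc3 hc5, hC5, max (max x1 x3) x5, by
    have := le_max_right (max x1 x3) x5; omega, ?_⟩
  intro x y hx hy hyx
  have b1 : x1 ≤ x := le_trans (le_trans (le_max_left _ _) (le_max_left _ _)) hx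
  have b3 : x3 ≤ x := le_trans (le_trans (le_max_right _ _) (le_max_left _ _)) hx
  have b5 : x5 ≤ x := le_trans (le_max_right _ _) hx
  have hxR : (20 : ℝ) ≤ x := by exact_mod_cast hx5.trans b5
  have hx0 : (0 : ℝ) < x := by linarith
  have hL : 0 < Real.log x := Real.log_pos (by linarith)
  rcases le_or_gt (y : ℝ) ((x : ℝ) ^ (1 / 2 : ℝ)) with h | h
  · refine le_trans ?_ (h5 x y b5 hy h)
    gcongr
    exact min_le_right _ _
  · refine le_trans ?_ (h3 x y b3 ?_ hyx)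
    · gcongr
      exact min_le_left _ _
    · refine le_trans ?_ h.le
      have g := hx1 x b1
      have e2 : (x : ℝ) ^ (1 / 2 : ℝ) = (x : ℝ) ^ (3 / 7 : ℝ) * (x : ℝ) ^ (1 / 14 : ℝ) := by
        rw [← Real.rpow_add hx0]
        norm_num
      calc C3 * (x : ℝ) ^ (3 / 7 : ℝ) * Real.log x ^ 2 ≤ C3 * (x : ℝ) ^ (3 / 7 : ℝ) *
            (1 / C3 * (x : ℝ) ^ (1 / 14 : ℝ)) := by gcongr
        _ = (x : ℝ) ^ (1 / 2 : ℝ) := by
          rw [e2]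
          field_simp

end Pool.Agent.H69.CT
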