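import Pool.Agent.H69.CT.Mid

/-!
[H69 CT BAD] Rough numbers which are not cyclic in a short interval, exponent `5/12`: the total.
-/

namespace Pool.Agent.H69.CT

open Finset Classical

open Pool.Agent.H69.CP (class_card dvd_card harm Rough)
open Pool.Agent.H69.CR (E1 E2 D L1 L2)
open Pool.Agent.H69.CS (cube_sum large_p2 large_sq2)
open Pool.Agent.H69

theorem part1 (x y P S : ℕ) (w : ℝ) (hw : 1 ≤ w) (hS : S = Nat.sqrt (2 * x))
    (hS3 : 3 ≤ S) (hPx : P ^ 2 ≤ x) :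
    ((((Ioc ⌊w⌋₊ P).biUnion fun p => D x y p ∪ (E1 x y S p ∪ E2 x y S p)).card : ℕ) : ℝ) ≤
      3245 * (1 + Real.log S) ^ 2 * (2 * y / w) + P + 108 * (1 + Real.log S) * ((x : ℝ) ^ (1 / 3 : ℝ) *
        (P : ℝ) ^ (1 / 3 : ℝ)) := by
  have hS1 : 1 ≤ S := by omega
  have hlogS : 0 ≤ Real.log S := Real.log_nonneg (by exact_mod_cast hS1)
  set W := ⌊w⌋₊ with hW
  have hW1 : 1 ≤ W := Nat.le_floor (by exact_mod_cast hw)
  have hWR : (1 : ℝ) ≤ W := by exact_mod_cast hW1
  have hww : w ≤ 2 * W := by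
    have := Nat.lt_floor_add_one w
    rw [← hW] at this
    linarith
  have hs2 : ∑ p ∈ Ioc W P, 1 / (p : ℝ) ^ 2 ≤ 1 / (W : ℝ) := by
    rcases le_or_gt W P with h | h
    · have := sum_Ioc_inv_sq_le_sub (α := ℝ) (k := W) (n := P) (by omega) h
      have e : ∑ p ∈ Ioc W P, 1 / (p : ℝ) ^ 2 = ∑ i ∈ Ioc W P, ((i : ℝ) ^ 2)⁻¹ := by
        apply sum_congr rfl
        intro p _
        rw [one_div]
      rw [e, one_div]
      have : (0 : ℝ) ≤ (P : ℝ)⁻¹ := by positivity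
      linarith
    · rw [Finset.Ioc_eq_empty (by omega), sum_empty]
      positivity
  have hs3 : ∑ p ∈ Ioc W P, 1 / ((p : ℝ) ^ (1 / 3 : ℝ)) ^ 2 ≤ 3 * (P : ℝ) ^ (1 / 3 : ℝ) := by
    refine le_trans ?_ (cube_sum P)
    apply sum_le_sum_of_subset_of_nonneg
    · intro p hp
      rw [mem_Ioc] at hp
      rw [mem_Icc]
      omega
    · intro p _ _
      positivity
  have hcard : ((Ioc W P).card : ℝ) ≤ P := by
    rw [Nat.card_Ioc]
    exact_mod_cast Nat.sub_le P W
  set Λ := 1 + Real.log S with hΛ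
  have hΛ1 : 1 ≤ Λ := by linarith
  have hx3 : 0 ≤ (x : ℝ) ^ (1 / 3 : ℝ) := by positivity
  calc ((((Ioc W P).biUnion fun p => D x y p ∪ (E1 x y S p ∪ E2 x y S p)).card : ℕ) : ℝ)
      ≤ ((∑ p ∈ Ioc W P, (D x y p ∪ (E1 x y S p ∪ E2 x y S p)).card : ℕ) : ℝ) := by
        exact_mod_cast card_biUnion_le
    _ ≤ ∑ p ∈ Ioc W P, (3245 * Λ ^ 2 * y * (1 / (p : ℝ) ^ 2) +
          (1 + 36 * Λ * (x : ℝ) ^ (1 / 3 : ℝ) * (1 / ((p : ℝ) ^ (1 / 3 : ℝ)) ^ 2))) := by
        push_cast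
        refine sum_le_sum fun p hp => ?_
        rw [mem_Ioc] at hp
        have hp0 : 0 < p := by omega
        have hpR : (0 : ℝ) < p := by exact_mod_cast hp0
        have hpx : (p : ℝ) ^ 2 ≤ x := by
          have h1 : p ^ 2 ≤ x := (Nat.pow_le_pow_left hp.2 2).trans hPx
          exact_mod_cast h1
        obtain ⟨a, ha⟩ : ∃ a : ℝ, a = ((x : ℝ) / (p : ℝ) ^ 2) ^ (1 / 3 : ℝ) := ⟨_, rfl⟩
        have hA1 : 1 ≤ (x : ℝ) / (p : ℝ) ^ 2 := by rwa [one_le_div (by positivity)]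
        have ha1 : 1 ≤ a := by rw [ha]; exact Real.one_le_rpow hA1 (by norm_num)
        have ha3 : a ^ 3 = (x : ℝ) / (p : ℝ) ^ 2 := by
          rw [ha, ← Real.rpow_natCast, ← Real.rpow_mul (by positivity)]
          push_cast
          norm_num
        have haeq : a = (x : ℝ) ^ (1 / 3 : ℝ) * (1 / ((p : ℝ) ^ (1 / 3 : ℝ)) ^ 2) := by
          rw [ha, Real.div_rpow (by positivity) (by positivity), ← Real.rpow_natCast ((p : ℝ) ^ (1 / 3 : ℝ)) 2,
            ← Real.rpow_mul (by positivity), ← Real.rpow_natCast (p : ℝ) 2, ← Real.rpow_mul (by positivity)]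
          rw [mul_comm ((2 : ℕ) : ℝ), mul_one_div]
        have e1 := CS.E1_card x y S p a hS hS3 hp0 ha1 ha3
        have e2 := CS.E2_card x y S p a hS hS3 hp0 ha1 ha3
        have e0 : ((D x y p).card : ℝ) ≤ y / (p : ℝ) ^ 2 + 1 := by
          have := dvd_card x y (p ^ 2) (by positivity)
          push_cast at this
          exact this
        have e3 : ((D x y p ∪ (E1 x y S p ∪ E2 x y S p)).card : ℝ) ≤
            (D x y p).card + ((E1 x y S p).card + (E2 x y S p).card) := by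
          have a1 := card_union_le (D x y p) (E1 x y S p ∪ E2 x y S p)
          have a2 := card_union_le (E1 x y S p) (E2 x y S p)
          exact_mod_cast a1.trans (Nat.add_le_add_left a2 _)
        have hB : 0 ≤ (y : ℝ) / (p : ℝ) ^ 2 := by positivity
        have e4 : (y : ℝ) / (p : ℝ) ^ 2 ≤ Λ ^ 2 * (y / (p : ℝ) ^ 2) := by
          have : 1 ≤ Λ ^ 2 := by nlinarith
          nlinarith
        have e5 : 3245 * Λ ^ 2 * y * (1 / (p : ℝ) ^ 2) +
          (1 + 36 * Λ * (x : ℝ) ^ (1 / 3 : ℝ) * (1 / ((p : ℝ) ^ (1 / 3 : ℝ)) ^ 2)) =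
          3245 * (Λ ^ 2 * (y / (p : ℝ) ^ 2)) + 1 + 36 * Λ * a := by
          rw [haeq]; ring
        rw [e5]
        rw [← hΛ] at e1 e2
        nlinarith
    _ = 3245 * Λ ^ 2 * y * (∑ p ∈ Ioc W P, 1 / (p : ℝ) ^ 2) +
        (((Ioc W P).card : ℝ) + 36 * Λ * (x : ℝ) ^ (1 / 3 : ℝ) * ∑ p ∈ Ioc W P, 1 / ((p : ℝ) ^ (1 / 3 : ℝ)) ^ 2) := by
        rw [sum_add_distrib, sum_add_distrib, ← mul_sum, ← mul_sum, sum_const, nsmul_eq_mul, mul_one]
    _ ≤ 3245 * Λ ^ 2 * y * (1 / (W : ℝ)) +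
        ((P : ℝ) + 36 * Λ * (x : ℝ) ^ (1 / 3 : ℝ) * (3 * (P : ℝ) ^ (1 / 3 : ℝ))) := by
        gcongr
    _ ≤ 3245 * Λ ^ 2 * y * (2 / w) +
        ((P : ℝ) + 36 * Λ * (x : ℝ) ^ (1 / 3 : ℝ) * (3 * (P : ℝ) ^ (1 / 3 : ℝ))) := by
        have h1 : (1 : ℝ) / W ≤ 2 / w := by
          rw [div_le_div_iff₀ (by linarith) (by linarith)]
          linarith
        gcongr
    _ = _ := by ring

theorem bad_sub3 (x y P0 P1 : ℕ) (w : ℝ) (hw : 1 ≤ w) (hyx : y ≤ x) (hP0 : 1 ≤ P0) :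
    ((Ioc x (x + y)).filter fun m => ¬ CY.IsCyclicNumber m ∧ Rough w m) ⊆
      ((Ioc ⌊w⌋₊ P0).biUnion fun p => D x y p ∪ (E1 x y (Nat.sqrt (2 * x)) p ∪ E2 x y (Nat.sqrt (2 * x)) p)) ∪
        ((((Ioc P0 P1).biUnion fun p => D x y p) ∪
          (((range (Nat.log 2 P1 + 1)).filter fun j => P0 * 2 ^ j ≤ P1).biUnion fun j =>
            F x y (P0 * 2 ^ j) (Nat.sqrt (2 * x) / (P0 * 2 ^ j)))) ∪
        (L1 x y P1 ∪ L2 x y P1)) := by
  intro m hm
  rw [mem_filter, mem_Ioc] at hm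
  obtain ⟨⟨hm1, hm2⟩, hc, hr⟩ := hm
  obtain ⟨p, hp, hpm, h⟩ := CP.A.dvd_totient m (by omega) hc
  have hwp : w < p := hr p hp hpm
  have hp0 : 0 < p := hp.pos
  set S := Nat.sqrt (2 * x) with hS
  have hSlt : 2 * x < (S + 1) * (S + 1) := Nat.lt_succ_sqrt (2 * x)
  have hm0 : 0 < m := by omega
  have hfl : ⌊w⌋₊ < p := (Nat.floor_lt (by linarith)).2 hwp
  rw [mem_union]
  rcases h with h | ⟨q, hq, hqp, hpq⟩
  · rcases Nat.lt_or_ge P0 p with h0 | h0
    · right
      rw [mem_union]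
      rcases Nat.lt_or_ge P1 p with h1 | h1
      · right
        rw [mem_union]
        right
        unfold L2
        rw [mem_filter, mem_Ioc]
        exact ⟨⟨hm1, hm2⟩, p, h1, h⟩
      · left
        rw [mem_union]
        left
        rw [mem_biUnion]
        refine ⟨p, mem_Ioc.2 ⟨h0, h1⟩, ?_⟩
        unfold D
        rw [mem_filter, mem_Ioc]
        exact ⟨⟨hm1, hm2⟩, h⟩
    · left
      rw [mem_biUnion]
      refine ⟨p, mem_Ioc.2 ⟨hfl, h0⟩, ?_⟩
      rw [mem_union]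
      left
      unfold D
      rw [mem_filter, mem_Ioc]
      exact ⟨⟨hm1, hm2⟩, h⟩
  · -- q = 1 + k p
    obtain ⟨r, hrm⟩ := hpq
    set k := q / p with hk
    have hqk : q = 1 + k * p := by
      have := Nat.div_add_mod q p
      rw [hqp] at this
      rw [hk]
      linarith
    have hk1 : 1 ≤ k := by
      rcases Nat.eq_zero_or_pos k with h0 | h0
      · rw [h0] at hqk
        have := hq.two_le
        omega
      · exact h0
    have hr1 : 1 ≤ r := by
      rcases Nat.eq_zero_or_pos r with h0 | h0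
      · rw [h0] at hrm
        omega
      · exact h0
    have hm3 : m = r * p * (1 + k * p) := by
      rw [hrm, hqk]; ring
    have hlt : (r * p) * (k * p) < m := by
      rw [hm3]
      have : 0 < r * p := Nat.mul_pos (by omega) hp0
      nlinarith
    have hor : r ≤ S / p ∨ k ≤ S / p := by
      by_contra hcon
      push Not at hcon
      have h1 : S < r * p := by
        have := (Nat.div_lt_iff_lt_mul hp0).1 hcon.1
        exact this
      have h2 : S < k * p := by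
        have := (Nat.div_lt_iff_lt_mul hp0).1 hcon.2
        exact this
      have h3 : (S + 1) * (S + 1) ≤ (r * p) * (k * p) := Nat.mul_le_mul h1 h2
      omega
    rcases Nat.lt_or_ge P0 p with h0 | h0
    · right
      rw [mem_union]
      rcases Nat.lt_or_ge P1 p with h1 | h1
      · right
        rw [mem_union]
        left
        unfold L1
        rw [mem_filter, mem_Ioc]
        exact ⟨⟨hm1, hm2⟩, p, r, k, h1, hr1, hk1, hm3⟩
      · left
        rw [mem_union]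
        right
        rw [mem_biUnion]
        have g1 : 1 ≤ (p - 1) / P0 := by
          rw [Nat.le_div_iff_mul_le (by omega)]
          omega
        have g4 := Nat.pow_log_le_self 2 (x := (p - 1) / P0) (by omega)
        have g5 := Nat.lt_pow_succ_log_self (b := 2) (by norm_num) ((p - 1) / P0)
        have g6 := Nat.mul_le_of_le_div _ _ _ g4
        rw [mul_comm] at g6
        have g7 := (Nat.div_lt_iff_lt_mul (by omega)).1 g5
        rw [pow_succ] at g7
        have g8 : 2 * (P0 * 2 ^ Nat.log 2 ((p - 1) / P0)) = 2 ^ Nat.log 2 ((p - 1) / P0) * 2 * P0 := by ring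
        have g9 : P0 * 2 ^ Nat.log 2 ((p - 1) / P0) < p := by omega
        refine ⟨Nat.log 2 ((p - 1) / P0), ?_, ?_⟩
        · rw [mem_filter, mem_range, Nat.lt_succ_iff]
          refine ⟨?_, by omega⟩
          apply Nat.log_mono_right
          exact (Nat.div_le_self _ _).trans (by omega)
        · unfold F
          rw [mem_filter, mem_Ioc]
          have hpos : 0 < P0 * 2 ^ Nat.log 2 ((p - 1) / P0) := by positivity
          have hdiv : S / p ≤ S / (P0 * 2 ^ Nat.log 2 ((p - 1) / P0)) := Nat.div_le_div_left g9.le hpos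
          refine ⟨⟨hm1, hm2⟩, p, r, k, g9, by omega, hr1, hk1, ?_, hm3⟩
          rcases hor with h2 | h2
          · left; exact h2.trans hdiv
          · right; exact h2.trans hdiv
    · left
      rw [mem_biUnion]
      refine ⟨p, mem_Ioc.2 ⟨hfl, h0⟩, ?_⟩
      rw [mem_union, mem_union]
      right
      rcases hor with h2 | h2
      · left
        unfold E1
        rw [mem_filter, mem_Ioc]
        exact ⟨⟨hm1, hm2⟩, r, k, hr1, hk1, h2, hm3⟩
      · right
        unfold E2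
        rw [mem_filter, mem_Ioc]
        exact ⟨⟨hm1, hm2⟩, r, k, hr1, hk1, h2, hm3⟩

theorem bad_short5 (x y P0 P1 S : ℕ) (w : ℝ) (hw : 1 ≤ w) (hx : 1 ≤ x) (hyx : y ≤ x) (hS : S = Nat.sqrt (2 * x))
    (hS3 : 3 ≤ S) (hP0 : 1 ≤ P0) (hP01 : P0 ≤ P1) (hP1S : P1 ≤ S) (hPx : P0 ^ 2 ≤ x) (hP4 : x ≤ P0 ^ 4)
    (hy : y ≤ P0 ^ 2) (hsm : 200 * ((y + S) * P1) ≤ x) :
    (((Ioc x (x + y)).filter fun m => ¬ CY.IsCyclicNumber m ∧ Rough w m).card : ℝ) ≤
      (3245 * (1 + Real.log S) ^ 2 * (2 * y / w) + P0 + 108 * (1 + Real.log S) * ((x : ℝ) ^ (1 / 3 : ℝ) *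
        (P0 : ℝ) ^ (1 / 3 : ℝ))) +
      (y / P0 + P1) +
      2 * (1 + Real.log S) * (35 * ((x : ℝ) ^ (2 / 3 : ℝ) / P0) +
        1728 * (1 + Real.log S) * ((1 + Real.log S) * (y / P0) + S / P0)) +
      ((2 * (x : ℝ) / P1 ^ 2) * (1 + Real.log (2 * x)) + (y / P1) * (1 + Real.log (2 * x)) ^ 2) +
      (2 * (x : ℝ) / P1 ^ 2 + (y / P1) * (1 + Real.log (2 * x))) := by
  have hS1 : 1 ≤ S := by omega
  have hP1 : 1 ≤ P1 := hP0.trans hP01
  have hP0R : (0 : ℝ) < P0 := by exact_mod_cast hP0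
  have hlogS : 0 ≤ Real.log S := Real.log_nonneg (by exact_mod_cast hS1)
  have hSx : S * S ≤ 2 * x := by rw [hS]; exact Nat.sqrt_le _
  have hm1 := part1 x y P0 S w hw hS hS3 hPx
  have hl1 := large_p2 x y P1 hP1 hx hyx
  have hl2 := large_sq2 x y P1 hP1 hx hyx
  have hsub := bad_sub3 x y P0 P1 w hw hyx hP0
  rw [← hS] at hsub
  set Λ := 1 + Real.log S with hΛ
  have hΛ1 : 1 ≤ Λ := by linarith
  -- multiples of squares, P0 < p ≤ P1
  have hD : ((((Ioc P0 P1).biUnion fun p => D x y p).card : ℕ) : ℝ) ≤ y / P0 + P1 := by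
    have hs2 : ∑ p ∈ Ioc P0 P1, 1 / (p : ℝ) ^ 2 ≤ 1 / (P0 : ℝ) := by
      have := sum_Ioc_inv_sq_le_sub (α := ℝ) (k := P0) (n := P1) (by omega) hP01
      have e : ∑ p ∈ Ioc P0 P1, 1 / (p : ℝ) ^ 2 = ∑ i ∈ Ioc P0 P1, ((i : ℝ) ^ 2)⁻¹ := by
        apply sum_congr rfl
        intro p _
        rw [one_div]
      rw [e, one_div]
      have : (0 : ℝ) ≤ (P1 : ℝ)⁻¹ := by positivity
      linarith
    have hcard : ((Ioc P0 P1).card : ℝ) ≤ P1 := by
      rw [Nat.card_Ioc]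
      exact_mod_cast Nat.sub_le P1 P0
    calc ((((Ioc P0 P1).biUnion fun p => D x y p).card : ℕ) : ℝ)
        ≤ ((∑ p ∈ Ioc P0 P1, (D x y p).card : ℕ) : ℝ) := by exact_mod_cast card_biUnion_le
      _ ≤ ∑ p ∈ Ioc P0 P1, ((y : ℝ) * (1 / (p : ℝ) ^ 2) + 1) := by
          push_cast
          refine sum_le_sum fun p hp => ?_
          rw [mem_Ioc] at hp
          have hp0 : 0 < p := by omega
          have := dvd_card x y (p ^ 2) (by positivity)
          push_cast at this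
          unfold D
          rw [mul_one_div]
          exact this
      _ = (y : ℝ) * (∑ p ∈ Ioc P0 P1, 1 / (p : ℝ) ^ 2) + ((Ioc P0 P1).card : ℝ) := by
          rw [sum_add_distrib, ← mul_sum, sum_const, nsmul_eq_mul, mul_one]
      _ ≤ (y : ℝ) * (1 / (P0 : ℝ)) + P1 := by gcongr
      _ = y / P0 + P1 := by ring
  -- the blocks
  have hJ : ((Nat.log 2 P1 + 1 : ℕ) : ℝ) ≤ 2 * Λ := by
    have h2 : ((Nat.log 2 P1 : ℕ) : ℝ) ≤ (Nat.log 2 S : ℕ) := by exact_mod_cast Nat.log_mono_right hP1S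
    have h3 := Real.natLog_le_logb S 2
    have h4 : Real.logb (2 : ℕ) S ≤ 2 * Real.log S := by
      unfold Real.logb
      have h5 := Real.log_two_gt_d9
      push_cast
      rw [div_le_iff₀ (by linarith)]
      nlinarith
    push_cast
    push_cast at h4 h3
    linarith
  have hF : (((((range (Nat.log 2 P1 + 1)).filter fun j => P0 * 2 ^ j ≤ P1).biUnion fun j =>
      F x y (P0 * 2 ^ j) (S / (P0 * 2 ^ j))).card : ℕ) : ℝ) ≤
      2 * Λ * (35 * ((x : ℝ) ^ (2 / 3 : ℝ) / P0) + 1728 * Λ * (Λ * (y / P0) + S / P0)) := by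
    have hq : 0 ≤ 35 * ((x : ℝ) ^ (2 / 3 : ℝ) / P0) + 1728 * Λ * (Λ * (y / P0) + S / P0) := by positivity
    calc (((((range (Nat.log 2 P1 + 1)).filter fun j => P0 * 2 ^ j ≤ P1).biUnion fun j =>
          F x y (P0 * 2 ^ j) (S / (P0 * 2 ^ j))).card : ℕ) : ℝ)
        ≤ ((∑ j ∈ (range (Nat.log 2 P1 + 1)).filter (fun j => P0 * 2 ^ j ≤ P1),
          (F x y (P0 * 2 ^ j) (S / (P0 * 2 ^ j))).card : ℕ) : ℝ) := by exact_mod_cast card_biUnion_le
      _ ≤ ∑ j ∈ (range (Nat.log 2 P1 + 1)).filter (fun j => P0 * 2 ^ j ≤ P1),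
          (35 * ((x : ℝ) ^ (2 / 3 : ℝ) / P0) + 1728 * Λ * (Λ * (y / P0) + S / P0)) := by
          push_cast
          refine sum_le_sum fun j hj => ?_
          rw [mem_filter] at hj
          set R := P0 * 2 ^ j with hR
          have hPR : P0 ≤ R := Nat.le_mul_of_pos_right P0 (by positivity)
          have hPRR : (P0 : ℝ) ≤ R := by exact_mod_cast hPR
          have hR1 : 1 ≤ R := hP0.trans hPR
          have hRP1 : R ≤ P1 := hj.2
          have hMR : S / R * R ≤ S := Nat.div_mul_le_self S R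
          have h1 := F_card x y R S hx hR1 (hP4.trans (Nat.pow_le_pow_left hPR 4)) (hRP1.trans hP1S) (S / R)
            (hy.trans (Nat.pow_le_pow_left hPR 2)) hMR hSx (by
              refine le_trans ?_ hsm
              have e1 : S / R * R ^ 2 = (S / R * R) * R := by ring
              have e2 : S / R * R ^ 2 ≤ S * R := by rw [e1]; exact Nat.mul_le_mul_right R hMR
              have e3 : y * R + S / R * R ^ 2 ≤ (y + S) * R := by rw [add_mul]; omega
              have e4 : (y + S) * R ≤ (y + S) * P1 := Nat.mul_le_mul_left _ hRP1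
              omega)
          refine h1.trans ?_
          rw [← hΛ]
          gcongr
      _ = ((((range (Nat.log 2 P1 + 1)).filter fun j => P0 * 2 ^ j ≤ P1).card : ℕ) : ℝ) *
          (35 * ((x : ℝ) ^ (2 / 3 : ℝ) / P0) + 1728 * Λ * (Λ * (y / P0) + S / P0)) := by
          rw [sum_const, nsmul_eq_mul]
      _ ≤ 2 * Λ * (35 * ((x : ℝ) ^ (2 / 3 : ℝ) / P0) + 1728 * Λ * (Λ * (y / P0) + S / P0)) := by
          apply mul_le_mul_of_nonneg_right _ hq
          refine le_trans ?_ hJ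
          have h2 := card_filter_le (range (Nat.log 2 P1 + 1)) (fun j => P0 * 2 ^ j ≤ P1)
          rw [card_range] at h2
          exact_mod_cast h2
  have h1 := (card_le_card hsub).trans (card_union_le _ _)
  have h2 := card_union_le ((((Ioc P0 P1).biUnion fun p => D x y p) ∪
          (((range (Nat.log 2 P1 + 1)).filter fun j => P0 * 2 ^ j ≤ P1).biUnion fun j =>
            F x y (P0 * 2 ^ j) (S / (P0 * 2 ^ j))))) (L1 x y P1 ∪ L2 x y P1)
  have h3 := card_union_le ((Ioc P0 P1).biUnion fun p => D x y p)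
          (((range (Nat.log 2 P1 + 1)).filter fun j => P0 * 2 ^ j ≤ P1).biUnion fun j =>
            F x y (P0 * 2 ^ j) (S / (P0 * 2 ^ j)))
  have h4 := card_union_le (L1 x y P1) (L2 x y P1)
  have h5 : (((Ioc x (x + y)).filter fun m => ¬ CY.IsCyclicNumber m ∧ Rough w m).card : ℝ) ≤
      ((((Ioc ⌊w⌋₊ P0).biUnion fun p => D x y p ∪ (E1 x y S p ∪ E2 x y S p)).card : ℕ) : ℝ) +
      ((((((Ioc P0 P1).biUnion fun p => D x y p).card : ℕ) : ℝ) +
      (((((range (Nat.log 2 P1 + 1)).filter fun j => P0 * 2 ^ j ≤ P1).biUnion fun j =>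
        F x y (P0 * 2 ^ j) (S / (P0 * 2 ^ j))).card : ℕ) : ℝ)) +
      (((L1 x y P1).card : ℝ) + ((L2 x y P1).card : ℝ))) := by
    have := h1.trans (Nat.add_le_add_left (h2.trans (Nat.add_le_add h3 h4)) _)
    exact_mod_cast this
  unfold L1 L2 at h5
  linarith

end Pool.Agent.H69.CT
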