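import Mathlib

/-!
[H69 CT TWO] Two-point lemma for `A / (n (n + s))`: integers `n` in `(R, 2R]` for which `A / (n (n + s))` is at distance at most `δ`
from an integer: at most `R / H + 1 + 6 A H ^ 2 / R ^ 3 + 864 δ R (1 + log H)`.

Proof (as `Pool/Agent/H69/CS/Two.lean`, `two_point2`). `T'` = the `n ∈ T` without another element of `T` in `(n, n + H]`:
`|T'| ≤ R / H + 1`. For the other `n` let `n'` be the next element of `T`, `h = n' - n ≤ H`, `a' = v n - v n'`,
`q = A (n + n' + s) / (n n' (n + s) (n' + s))` (so `A / (n (n + s)) - A / (n' (n' + s)) = q h`). Then `|a' - q h| ≤ 2 δ`.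
`q ≥ A * 2 R / (2R * 2R * 3R * 3R) = A / (18 R ^ 3) > 2 δ`, so `a' ≥ 1`. Let `a / b` be `a' / h` in lowest terms: `b ∣ h`, `1 ≤ b ≤ H`,
`|a / b - q| ≤ 2 δ / h ≤ 2 δ / b`. As `q ≤ A (4 R + 1) / R ^ 4 ≤ 5 A / R ^ 3` and `2 δ ≤ A / R ^ 3`: `1 ≤ a ≤ 6 b A / R ^ 3`.
If `n1 < n2` have the same `(a, b)`: `n1' ≤ n2 < n2'`, and with
`(n + n' + s) / (n n' (n + s) (n' + s)) = 1 / (n' (n + s) (n' + s)) + 1 / (n n' (n + s))` (both terms decrease in `n` and `n'`):
`4 δ / b ≥ q1 - q2 ≥ (A / n1') (1 / (n1 (n1 + s)) - 1 / (n2 (n2 + s))) ≥ A (n2 - n1) / (36 R ^ 4)`, i.e.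
`n2 - n1 ≤ 144 δ R ^ 4 / (A b)`; and `n2 - n1 ≥ b`. So each `(a, b)` has at most `1 + 144 δ R ^ 4 / (A b ^ 2)` elements; sum over
`b ≤ H`: `∑ (6 b A / R ^ 3) (1 + 144 δ R ^ 4 / (A b ^ 2)) ≤ 6 A H ^ 2 / R ^ 3 + 864 δ R (1 + log H)`.
-/

namespace Pool.Agent.H69.CT

open Finset Classical

private theorem card_spaced {S : Finset ℕ} {K : ℝ} {b : ℕ} (hb : 1 ≤ b) (hK : 0 ≤ K)
    (h : ∀ n ∈ S, ∀ n' ∈ S, n < n' → b ≤ n' - n ∧ ((n' : ℝ) - n) ≤ K) :
    (S.card : ℝ) ≤ K / b + 1 := by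
  have hb0 : (0 : ℝ) < b := by exact_mod_cast hb
  rcases S.eq_empty_or_nonempty with rfl | hne
  · rw [card_empty, Nat.cast_zero]
    positivity
  · have hm := S.min'_mem hne
    have h1 : S.card ≤ (Finset.range (⌊K / b⌋₊ + 1)).card := by
      apply Finset.card_le_card_of_injOn (fun n => (n - S.min' hne) / b)
      · intro n hn
        have hn' : n ∈ S := hn
        have h2 := S.min'_le n hn'
        simp only [Finset.coe_range, Set.mem_Iio]
        apply Nat.lt_succ_of_le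
        apply Nat.le_floor
        have h3 : ((n : ℝ) - (S.min' hne : ℕ)) ≤ K := by
          rcases h2.eq_or_lt with h4 | h4
          · rw [← h4, sub_self]
            exact hK
          · exact (h _ hm n hn' h4).2
        calc (((n - S.min' hne) / b : ℕ) : ℝ) ≤ ((n - S.min' hne : ℕ) : ℝ) / b := Nat.cast_div_le
          _ ≤ K / b := by
              rw [Nat.cast_sub h2]
              exact div_le_div_of_nonneg_right h3 hb0.le
      · intro n hn n' hn' heq
        have hnS : n ∈ S := hn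
        have hnS' : n' ∈ S := hn'
        simp only at heq
        by_contra hne'
        have key : ∀ m ∈ S, ∀ m' ∈ S, m < m' →
            (m - S.min' hne) / b = (m' - S.min' hne) / b → False := by
          intro m hm1 m' hm2 hlt hdiv
          have g1 := S.min'_le m hm1
          have g2 := (h m hm1 m' hm2 hlt).1
          have d1 := Nat.div_add_mod (m - S.min' hne) b
          have d2 := Nat.div_add_mod (m' - S.min' hne) b
          have d3 := Nat.mod_lt (m - S.min' hne) hb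
          have d4 := Nat.mod_lt (m' - S.min' hne) hb
          rw [hdiv] at d1
          omega
        rcases lt_or_gt_of_ne hne' with hlt | hlt
        · exact key n hnS n' hnS' hlt heq
        · exact key n' hnS' n hnS hlt heq.symm
    rw [Finset.card_range] at h1
    have h7 : (S.card : ℝ) ≤ (⌊K / b⌋₊ : ℝ) + 1 := by exact_mod_cast h1
    linarith [Nat.floor_le (div_nonneg hK hb0.le)]

private theorem harm (n : ℕ) : ∑ k ∈ Icc 1 n, 1 / (k : ℝ) ≤ 1 + Real.log n := by
  have h := harmonic_le_one_add_log n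
  rw [harmonic_eq_sum_Icc] at h
  push_cast at h
  simpa [one_div] using h

/-- the geometric part -/
private theorem spread {A δ R b a s x1 y1 x2 y2 : ℝ} (hR : 1 ≤ R) (hA : 0 < A) (hb : 1 ≤ b)
    (hs : 0 ≤ s) (hs1 : s ≤ 1)
    (h1 : R ≤ x1) (h2 : x1 ≤ x2) (h3 : x2 ≤ 2 * R) (h4 : R ≤ y1) (h5 : y1 ≤ y2) (h6 : y2 ≤ 2 * R)
    (e1 : b * (A * (x1 + y1 + s) / (x1 * y1 * (x1 + s) * (y1 + s))) - a ≤ 2 * δ)
    (e2 : a - b * (A * (x2 + y2 + s) / (x2 * y2 * (x2 + s) * (y2 + s))) ≤ 2 * δ) :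
    x2 - x1 ≤ 144 * δ * R ^ 4 / (A * b) := by
  have hR0 : 0 < R := by linarith
  have hx1 : 0 < x1 := by linarith
  have hy1 : 0 < y1 := by linarith
  have hx2 : 0 < x2 := by linarith
  have hy2 : 0 < y2 := by linarith
  have hb0 : 0 < b := by linarith
  have hxs1 : 0 < x1 + s := by linarith
  have hys1 : 0 < y1 + s := by linarith
  have hxs2 : 0 < x2 + s := by linarith
  have hys2 : 0 < y2 + s := by linarith
  have q1 : A * (x1 + y1 + s) / (x1 * y1 * (x1 + s) * (y1 + s)) =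
      A * (1 / (y1 * (x1 + s) * (y1 + s)) + 1 / (x1 * y1 * (x1 + s))) := by
    field_simp
    ring
  have q2 : A * (x2 + y2 + s) / (x2 * y2 * (x2 + s) * (y2 + s)) =
      A * (1 / (y2 * (x2 + s) * (y2 + s)) + 1 / (x2 * y2 * (x2 + s))) := by
    field_simp
    ring
  have t1 : 1 / (y2 * (x2 + s) * (y2 + s)) ≤ 1 / (y1 * (x1 + s) * (y1 + s)) := by
    apply one_div_le_one_div_of_le (by positivity)
    apply mul_le_mul _ (by linarith) hys1.le (by positivity)
    exact mul_le_mul h5 (by linarith) hxs1.le hy2.le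
  have t2 : 1 / (x2 * y2 * (x2 + s)) ≤ 1 / (x2 * y1 * (x2 + s)) := by
    apply one_div_le_one_div_of_le (by positivity)
    exact mul_le_mul_of_nonneg_right (mul_le_mul_of_nonneg_left h5 hx2.le) hxs2.le
  have t3 : (x2 - x1) * (2 * R) / (72 * R ^ 5) ≤
      1 / (x1 * y1 * (x1 + s)) - 1 / (x2 * y1 * (x2 + s)) := by
    have k1 : 1 / (x1 * y1 * (x1 + s)) - 1 / (x2 * y1 * (x2 + s)) =
        (x2 - x1) * (x1 + x2 + s) / (y1 * (x1 * (x1 + s)) * (x2 * (x2 + s))) := by
      field_simp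
      ring
    rw [k1]
    have m0 : 0 ≤ x2 - x1 := by linarith
    apply div_le_div₀
    · positivity
    · exact mul_le_mul_of_nonneg_left (by linarith) m0
    · positivity
    · have m1 : x1 * (x1 + s) ≤ (2 * R) * (3 * R) :=
        mul_le_mul (by linarith) (by linarith) hxs1.le (by positivity)
      have m2 : x2 * (x2 + s) ≤ (2 * R) * (3 * R) :=
        mul_le_mul (by linarith) (by linarith) hxs2.le (by positivity)
      have m3 : y1 * (x1 * (x1 + s)) ≤ (2 * R) * ((2 * R) * (3 * R)) :=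
        mul_le_mul (by linarith) m1 (by positivity) (by positivity)
      calc y1 * (x1 * (x1 + s)) * (x2 * (x2 + s)) ≤
            ((2 * R) * ((2 * R) * (3 * R))) * ((2 * R) * (3 * R)) :=
            mul_le_mul m3 m2 (by positivity) (by positivity)
        _ = 72 * R ^ 5 := by ring
  have t4 : (x2 - x1) * (2 * R) / (72 * R ^ 5) = (x2 - x1) / (36 * R ^ 4) := by
    field_simp
    ring
  rw [t4] at t3
  have k0 : b * (A * (x1 + y1 + s) / (x1 * y1 * (x1 + s) * (y1 + s))) -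
      b * (A * (x2 + y2 + s) / (x2 * y2 * (x2 + s) * (y2 + s))) ≤ 4 * δ := by linarith
  rw [q1, q2] at k0
  have k2 : b * A * ((x2 - x1) / (36 * R ^ 4)) ≤ 4 * δ := by
    have k3 : b * A * ((x2 - x1) / (36 * R ^ 4)) ≤ b * A *
        ((1 / (y1 * (x1 + s) * (y1 + s)) + 1 / (x1 * y1 * (x1 + s))) -
        (1 / (y2 * (x2 + s) * (y2 + s)) + 1 / (x2 * y2 * (x2 + s)))) :=
      mul_le_mul_of_nonneg_left (by linarith) (by positivity)
    linarith
  rw [le_div_iff₀ (by positivity)]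
  have k5 : b * A * ((x2 - x1) / (36 * R ^ 4)) = ((x2 - x1) * (A * b)) / (36 * R ^ 4) := by
    ring
  rw [k5, div_le_iff₀ (by positivity)] at k2
  linarith

theorem two_sq (A δ s : ℝ) (R H : ℕ) (hH : 1 ≤ H) (hHR : H ≤ R) (hs : 0 ≤ s) (hs1 : s ≤ 1) (hδ : 0 ≤ δ) (hA : 0 < A)
    (hδA : 200 * δ * (R : ℝ) ^ 3 ≤ A) (T : Finset ℕ)
    (hT : ∀ n ∈ T, R < n ∧ n ≤ 2 * R ∧ ∃ v : ℤ, |(v : ℝ) - A / (n * (n + s))| ≤ δ) :
    (T.card : ℝ) ≤ R / H + 1 + 6 * A * H ^ 2 / R ^ 3 + 864 * δ * R * (1 + Real.log H) := by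
  have hH0 : (1 : ℝ) ≤ H := by exact_mod_cast hH
  have hR1 : (1 : ℝ) ≤ R := by exact_mod_cast (hH.trans hHR)
  have hR0 : (0 : ℝ) < R := by linarith
  have hδR : 200 * δ ≤ A / R ^ 3 := by
    rw [le_div_iff₀ (by positivity)]
    exact hδA
  have hAR : 0 < A / (R : ℝ) ^ 3 := by positivity
  choose! v hv using fun n hn => (hT n hn).2.2
  -- the elements with a successor at distance at most `H`
  obtain ⟨T1, hT1⟩ : ∃ T1 : Finset ℕ, T1 = T.filter fun n => ∃ m ∈ T, n < m ∧ m ≤ n + H := ⟨_, rfl⟩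
  obtain ⟨T', hT'⟩ : ∃ T' : Finset ℕ, T' = T.filter fun n => ¬ ∃ m ∈ T, n < m ∧ m ≤ n + H :=
    ⟨_, rfl⟩
  have hcard0 : T1.card + T'.card = T.card := by
    rw [hT1, hT']
    exact card_filter_add_card_filter_not _
  have hnx : ∀ n ∈ T1, ∃ m, m ∈ T ∧ n < m ∧ m ≤ n + H ∧ ∀ k ∈ T, n < k → m ≤ k := by
    intro n hn
    rw [hT1, Finset.mem_filter] at hn
    obtain ⟨_, m, hm, hnm, hmH⟩ := hn
    have hex : ∃ m, m ∈ T ∧ n < m := ⟨m, hm, hnm⟩
    refine ⟨Nat.find hex, (Nat.find_spec hex).1, (Nat.find_spec hex).2, ?_, ?_⟩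
    · exact (Nat.find_min' hex ⟨hm, hnm⟩).trans hmH
    · intro k hk hnk
      exact Nat.find_min' hex ⟨hk, hnk⟩
  choose! nx hnx1 hnx2 hnx3 hnx4 using hnx
  have hT1T : ∀ n ∈ T1, n ∈ T := fun n hn => by
    rw [hT1, Finset.mem_filter] at hn
    exact hn.1
  -- the reduced fraction
  let hh : ℕ → ℕ := fun n => nx n - n
  let aa : ℕ → ℕ := fun n => (v n - v (nx n)).toNat
  let b : ℕ → ℕ := fun n => hh n / Nat.gcd (aa n) (hh n)
  let a : ℕ → ℕ := fun n => aa n / Nat.gcd (aa n) (hh n)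
  have fac : ∀ n ∈ T1, 1 ≤ b n ∧ b n ≤ hh n ∧ hh n ≤ H ∧
      A / (18 * R ^ 3) ≤ A * ((n : ℝ) + nx n + s) / ((n : ℝ) * nx n * ((n : ℝ) + s) * ((nx n : ℝ) + s)) ∧
      A * ((n : ℝ) + nx n + s) / ((n : ℝ) * nx n * ((n : ℝ) + s) * ((nx n : ℝ) + s)) ≤ 5 * (A / R ^ 3) ∧
      |(a n : ℝ) - b n * (A * ((n : ℝ) + nx n + s) /
        ((n : ℝ) * nx n * ((n : ℝ) + s) * ((nx n : ℝ) + s)))| ≤ 2 * δ := by
    intro n hn
    have g1 := hnx2 n hn
    have g2 := hnx3 n hn
    have hh1 : 1 ≤ hh n := by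
      show 1 ≤ nx n - n
      omega
    have hhH : hh n ≤ H := by
      show nx n - n ≤ H
      omega
    have hgpos : 0 < Nat.gcd (aa n) (hh n) := Nat.gcd_pos_of_pos_right _ hh1
    have e1 : b n * Nat.gcd (aa n) (hh n) = hh n := Nat.div_mul_cancel (Nat.gcd_dvd_right _ _)
    have e2 : a n * Nat.gcd (aa n) (hh n) = aa n := Nat.div_mul_cancel (Nat.gcd_dvd_left _ _)
    have hb1 : 1 ≤ b n := Nat.div_pos (Nat.gcd_le_right _ hh1) hgpos
    have hb2 : b n ≤ hh n := Nat.div_le_self _ _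
    have r1 := hT n (hT1T n hn)
    have r2 := hT (nx n) (hnx1 n hn)
    have v1 := abs_le.1 (hv n (hT1T n hn))
    have v2 := abs_le.1 (hv (nx n) (hnx1 n hn))
    have hnR : (R : ℝ) < n := by exact_mod_cast r1.1
    have hnR' : (R : ℝ) < nx n := by exact_mod_cast r2.1
    have hn2 : (n : ℝ) ≤ 2 * R := by exact_mod_cast r1.2.1
    have hn2' : (nx n : ℝ) ≤ 2 * R := by exact_mod_cast r2.2.1
    have hx0 : 0 < (n : ℝ) := by linarith
    have hy0 : 0 < (nx n : ℝ) := by linarith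
    have hx : 0 < (n : ℝ) + s := by linarith
    have hy : 0 < (nx n : ℝ) + s := by linarith
    have hhr : (hh n : ℝ) = nx n - n := by
      show ((nx n - n : ℕ) : ℝ) = nx n - n
      rw [Nat.cast_sub g1.le]
    have hhp : (1 : ℝ) ≤ (hh n : ℝ) := by exact_mod_cast hh1
    obtain ⟨q, hq⟩ : ∃ q : ℝ, q = A * ((n : ℝ) + nx n + s) /
        ((n : ℝ) * nx n * ((n : ℝ) + s) * ((nx n : ℝ) + s)) := ⟨_, rfl⟩
    have hqlow : A / (18 * R ^ 3) ≤ q := by
      have e0 : A / (18 * (R : ℝ) ^ 3) = A * (2 * R) / (36 * R ^ 4) := by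
        field_simp
        ring
      rw [e0, hq]
      apply div_le_div₀
      · positivity
      · exact mul_le_mul_of_nonneg_left (by linarith) hA.le
      · positivity
      · have m1 : (n : ℝ) * nx n ≤ (2 * R) * (2 * R) :=
          mul_le_mul hn2 hn2' hy0.le (by positivity)
        have m2 : (n : ℝ) * nx n * ((n : ℝ) + s) ≤ ((2 * R) * (2 * R)) * (3 * R) :=
          mul_le_mul m1 (by linarith) hx.le (by positivity)
        calc (n : ℝ) * nx n * ((n : ℝ) + s) * ((nx n : ℝ) + s) ≤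
              (((2 * R) * (2 * R)) * (3 * R)) * (3 * R) :=
              mul_le_mul m2 (by linarith) hy.le (by positivity)
          _ = 36 * R ^ 4 := by ring
    have hqup : q ≤ 5 * (A / R ^ 3) := by
      have e0 : 5 * (A / (R : ℝ) ^ 3) = A * (5 * R) / R ^ 4 := by
        field_simp
      rw [e0, hq]
      apply div_le_div₀
      · positivity
      · exact mul_le_mul_of_nonneg_left (by linarith) hA.le
      · positivity
      · have m1 : (R : ℝ) * R ≤ (n : ℝ) * nx n :=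
          mul_le_mul hnR.le hnR'.le hR0.le hx0.le
        have m2 : (R : ℝ) * R * R ≤ (n : ℝ) * nx n * ((n : ℝ) + s) :=
          mul_le_mul m1 (by linarith) hR0.le (by positivity)
        calc (R : ℝ) ^ 4 = R * R * R * R := by ring
          _ ≤ (n : ℝ) * nx n * ((n : ℝ) + s) * ((nx n : ℝ) + s) :=
              mul_le_mul m2 (by linarith) hR0.le (by positivity)
    refine ⟨hb1, hb2, hhH, hq ▸ hqlow, hq ▸ hqup, ?_⟩
    rw [← hq]
    have e3 : A / ((n : ℝ) * ((n : ℝ) + s)) - A / ((nx n : ℝ) * ((nx n : ℝ) + s)) = hh n * q := by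
      rw [hq, hhr]
      field_simp
      ring
    have hq0 : 0 < q := by
      rw [hq]
      positivity
    have hz : (0 : ℤ) ≤ v n - v (nx n) := by
      have h6 : (-1 : ℝ) < ((v n - v (nx n) : ℤ) : ℝ) := by
        push_cast
        have h7 : 1 * q ≤ (hh n : ℝ) * q := mul_le_mul_of_nonneg_right hhp hq0.le
        have h8 : A / (18 * (R : ℝ) ^ 3) = (1 / 18) * (A / R ^ 3) := by
          field_simp
        linarith [v1.1, v2.2]
      have h7 : (-1 : ℤ) < v n - v (nx n) := by exact_mod_cast h6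
      omega
    have haa : (aa n : ℝ) = (v n : ℝ) - v (nx n) := by
      have h8 : ((aa n : ℕ) : ℤ) = v n - v (nx n) := Int.toNat_of_nonneg hz
      exact_mod_cast h8
    have h9 : |(aa n : ℝ) - hh n * q| ≤ 2 * δ := by
      rw [haa, abs_le]
      constructor <;> linarith [v1.1, v1.2, v2.1, v2.2]
    obtain ⟨d, hd⟩ : ∃ d : ℝ, d = (Nat.gcd (aa n) (hh n) : ℕ) := ⟨_, rfl⟩
    have hd1 : 1 ≤ d := by
      rw [hd]
      exact_mod_cast hgpos
    have e4 : (aa n : ℝ) - hh n * q = d * ((a n : ℝ) - b n * q) := by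
      have e5 : (b n : ℝ) * d = hh n := by
        rw [hd]
        exact_mod_cast e1
      have e6 : (a n : ℝ) * d = aa n := by
        rw [hd]
        exact_mod_cast e2
      rw [← e5, ← e6]
      ring
    rw [e4, abs_mul, abs_of_pos (by linarith : 0 < d)] at h9
    calc |(a n : ℝ) - b n * q| = 1 * |(a n : ℝ) - b n * q| := (one_mul _).symm
      _ ≤ d * |(a n : ℝ) - b n * q| := mul_le_mul_of_nonneg_right hd1 (abs_nonneg _)
      _ ≤ 2 * δ := h9
  obtain ⟨S, hS⟩ : ∃ S : ℕ → ℕ → Finset ℕ,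
      S = fun (b' a' : ℕ) => T1.filter fun n => b n = b' ∧ a n = a' := ⟨_, rfl⟩
  -- each pair
  have hcard : ∀ b' ∈ Finset.Icc 1 H, ∀ a' : ℕ,
      ((S b' a').card : ℝ) ≤ 144 * δ * R ^ 4 / (A * b') / b' + 1 := by
    intro b' hb' a'
    rw [Finset.mem_Icc] at hb'
    have hb0 : (1 : ℝ) ≤ b' := by exact_mod_cast hb'.1
    apply card_spaced hb'.1 (by positivity)
    intro n hn n' hn' hlt
    rw [hS] at hn hn'
    simp only [Finset.mem_filter] at hn hn'
    obtain ⟨hn, hnb, hna⟩ := hn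
    obtain ⟨hn', hnb', hna'⟩ := hn'
    have f1 := fac n hn
    have f2 := fac n' hn'
    have n1 := hnx4 n hn n' (hT1T n' hn') hlt
    have n2 := hnx2 n hn
    have n3 := hnx2 n' hn'
    constructor
    · rw [← hnb]
      have h1 := f1.2.1
      have h2 : hh n = nx n - n := rfl
      omega
    · have r1 := hT n (hT1T n hn)
      have r2 := hT n' (hT1T n' hn')
      have r3 := hT (nx n) (hnx1 n hn)
      have r4 := hT (nx n') (hnx1 n' hn')
      have c1 : (R : ℝ) < n := by exact_mod_cast r1.1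
      have c2 : (n' : ℝ) ≤ 2 * R := by exact_mod_cast r2.2.1
      have c3 : (R : ℝ) < nx n := by exact_mod_cast r3.1
      have c4 : (nx n' : ℝ) ≤ 2 * R := by exact_mod_cast r4.2.1
      have c5 : (nx n : ℝ) ≤ nx n' := by
        have : nx n ≤ nx n' := by omega
        exact_mod_cast this
      have c6 : (n : ℝ) < n' := by exact_mod_cast hlt
      have w1 := (abs_le.1 f1.2.2.2.2.2).1
      have w2 := (abs_le.1 f2.2.2.2.2.2).2
      rw [hnb, hna] at w1
      rw [hnb', hna'] at w2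
      exact spread (A := A) (δ := δ) (R := R) (b := b') (a := a') (s := s) (x1 := n)
        (y1 := nx n) (x2 := n') (y2 := nx n') hR1 hA hb0 hs hs1 (by linarith) (by linarith)
        (by linarith) (by linarith) (by linarith) (by linarith) (by linarith) (by linarith)
  -- the isolated elements
  have hT'card : (T'.card : ℝ) ≤ R / H + 1 := by
    have h1 : T'.card ≤ (Finset.range ((R - 1) / (H + 1) + 1)).card := by
      apply Finset.card_le_card_of_injOn (fun n => (n - (R + 1)) / (H + 1))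
      · intro n hn
        rw [hT', Finset.mem_coe, Finset.mem_filter] at hn
        have h2 := hT n hn.1
        have h3 : n - (R + 1) ≤ R - 1 := by omega
        have h4 := Nat.div_le_div_right (c := H + 1) h3
        simp only [Finset.coe_range, Set.mem_Iio]
        omega
      · intro n hn n' hn' heq
        rw [hT', Finset.mem_coe, Finset.mem_filter] at hn hn'
        simp only at heq
        by_contra hne
        have key : ∀ m ∈ T, ∀ m' ∈ T, m < m' → (m - (R + 1)) / (H + 1) = (m' - (R + 1)) / (H + 1) →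
            m' ≤ m + H := by
          intro m hm m' hm' hlt hdiv
          have q1 := (hT m hm).1
          have q2 := (hT m' hm').1
          have d1 := Nat.div_add_mod (m - (R + 1)) (H + 1)
          have d2 := Nat.div_add_mod (m' - (R + 1)) (H + 1)
          have d3 := Nat.mod_lt (m - (R + 1)) (by omega : 0 < H + 1)
          have d4 := Nat.mod_lt (m' - (R + 1)) (by omega : 0 < H + 1)
          rw [hdiv] at d1
          omega
        rcases lt_or_gt_of_ne hne with hlt | hlt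
        · exact hn.2 ⟨n', hn'.1, hlt, key n hn.1 n' hn'.1 hlt heq⟩
        · exact hn'.2 ⟨n, hn.1, hlt, key n' hn'.1 n hn.1 hlt heq.symm⟩
    rw [Finset.card_range] at h1
    have h2 : (T'.card : ℝ) ≤ (((R - 1) / (H + 1) : ℕ) : ℝ) + 1 := by exact_mod_cast h1
    have h3 : (((R - 1) / (H + 1) : ℕ) : ℝ) ≤ ((R / (H + 1) : ℕ) : ℝ) := by
      exact_mod_cast Nat.div_le_div_right (Nat.sub_le R 1)
    have h4 : ((R / (H + 1) : ℕ) : ℝ) ≤ (R : ℝ) / ((H + 1 : ℕ) : ℝ) := Nat.cast_div_le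
    have h5 : (R : ℝ) / ((H + 1 : ℕ) : ℝ) ≤ R / H := by
      apply div_le_div_of_nonneg_left hR0.le (by linarith)
      push_cast
      linarith
    linarith
  -- the number of values of `a`
  obtain ⟨M, hM⟩ : ∃ M : ℕ → ℕ, M = fun b' : ℕ => ⌊6 * (b' : ℝ) * (A / R ^ 3)⌋₊ := ⟨_, rfl⟩
  have hcov : T1 ⊆ (Finset.Icc 1 H).biUnion fun b' => (Finset.Icc 1 (M b')).biUnion fun a' => S b' a' := by
    intro n hn
    have f1 := fac n hn
    rw [Finset.mem_biUnion]
    refine ⟨b n, Finset.mem_Icc.2 ⟨f1.1, f1.2.1.trans f1.2.2.1⟩, ?_⟩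
    rw [Finset.mem_biUnion]
    refine ⟨a n, ?_, ?_⟩
    · rw [Finset.mem_Icc, hM]
      have hbn : (1 : ℝ) ≤ b n := by exact_mod_cast f1.1
      have h2 := (abs_le.1 f1.2.2.2.2.2).2
      have h2' := (abs_le.1 f1.2.2.2.2.2).1
      have h3 := mul_le_mul_of_nonneg_left f1.2.2.2.2.1 (by linarith : (0 : ℝ) ≤ b n)
      have h3' := mul_le_mul_of_nonneg_left f1.2.2.2.1 (by linarith : (0 : ℝ) ≤ b n)
      have h8 : A / (18 * (R : ℝ) ^ 3) = (1 / 18) * (A / R ^ 3) := by
        field_simp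
      rw [h8] at h3'
      have h10 : 1 * (A / (R : ℝ) ^ 3) ≤ b n * (A / R ^ 3) :=
        mul_le_mul_of_nonneg_right hbn hAR.le
      constructor
      · have h11 : (0 : ℝ) < a n := by
          linarith
        exact_mod_cast h11
      · apply Nat.le_floor
        linarith
    · rw [hS]
      simp only [Finset.mem_filter]
      exact ⟨hn, trivial, trivial⟩
  have hfin : (T1.card : ℝ) ≤ ∑ b' ∈ Finset.Icc 1 H, ∑ a' ∈ Finset.Icc 1 (M b'),
      ((S b' a').card : ℝ) := by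
    have h1 := (Finset.card_le_card hcov).trans
      (Finset.card_biUnion_le.trans (Finset.sum_le_sum fun b' _ => Finset.card_biUnion_le))
    exact_mod_cast h1
  have hterm : ∀ b' ∈ Finset.Icc 1 H, ∑ a' ∈ Finset.Icc 1 (M b'), ((S b' a').card : ℝ) ≤
      6 * A / R ^ 3 * b' + 864 * δ * R * (1 / b') := by
    intro b' hb'
    have hb1 : (1 : ℝ) ≤ b' := by exact_mod_cast (Finset.mem_Icc.1 hb').1
    have h1 : ∑ a' ∈ Finset.Icc 1 (M b'), ((S b' a').card : ℝ) ≤
        (M b' : ℝ) * (144 * δ * R ^ 4 / (A * b') / b' + 1) := by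
      calc ∑ a' ∈ Finset.Icc 1 (M b'), ((S b' a').card : ℝ)
          ≤ ∑ _a' ∈ Finset.Icc 1 (M b'), (144 * δ * R ^ 4 / (A * b') / b' + 1) :=
            Finset.sum_le_sum fun a' _ => hcard b' hb' a'
        _ = (M b' : ℝ) * (144 * δ * R ^ 4 / (A * b') / b' + 1) := by
            rw [Finset.sum_const, Nat.card_Icc, nsmul_eq_mul, Nat.add_sub_cancel]
    have h2 : (M b' : ℝ) ≤ 6 * (b' : ℝ) * (A / R ^ 3) := by
      rw [hM]
      exact Nat.floor_le (by positivity)
    refine h1.trans ?_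
    calc (M b' : ℝ) * (144 * δ * R ^ 4 / (A * b') / b' + 1)
        ≤ (6 * (b' : ℝ) * (A / R ^ 3)) * (144 * δ * R ^ 4 / (A * b') / b' + 1) :=
          mul_le_mul_of_nonneg_right h2 (by positivity)
      _ = 6 * A / R ^ 3 * b' + 864 * δ * R * (1 / b') := by
          field_simp
          ring
  have hlast : ∑ b' ∈ Finset.Icc 1 H, (6 * A / R ^ 3 * (b' : ℝ) + 864 * δ * R * (1 / b')) ≤
      6 * A * H ^ 2 / R ^ 3 + 864 * δ * R * (1 + Real.log H) := by
    rw [Finset.sum_add_distrib, ← Finset.mul_sum, ← Finset.mul_sum]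
    have h1 : ∑ b' ∈ Finset.Icc 1 H, (b' : ℝ) ≤ (H : ℝ) ^ 2 := by
      calc ∑ b' ∈ Finset.Icc 1 H, (b' : ℝ) ≤ ∑ _b' ∈ Finset.Icc 1 H, (H : ℝ) :=
            Finset.sum_le_sum fun b' hb' => by exact_mod_cast (Finset.mem_Icc.1 hb').2
        _ = (H : ℝ) ^ 2 := by
            rw [Finset.sum_const, Nat.card_Icc, nsmul_eq_mul]
            push_cast
            ring
    have h2 := harm H
    have h3 : 6 * A / R ^ 3 * ∑ b' ∈ Finset.Icc 1 H, (b' : ℝ) ≤ 6 * A / R ^ 3 * (H : ℝ) ^ 2 :=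
      mul_le_mul_of_nonneg_left h1 (by positivity)
    have h4 : 864 * δ * R * ∑ b' ∈ Finset.Icc 1 H, (1 / (b' : ℝ)) ≤ 864 * δ * R * (1 + Real.log H) :=
      mul_le_mul_of_nonneg_left h2 (by positivity)
    have h5 : 6 * A / R ^ 3 * (H : ℝ) ^ 2 = 6 * A * H ^ 2 / R ^ 3 := by ring
    linarith
  have hT1card := hfin.trans ((Finset.sum_le_sum hterm).trans hlast)
  have hc : (T.card : ℝ) = T1.card + T'.card := by exact_mod_cast hcard0.symm
  linarith

end Pool.Agent.H69.CT
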