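import Pool.Agent.H69.CS.Bad
import Pool.Agent.H69.CT.Two

/-!
[H69 CT MID] Numbers `r p (1 + k p)` in a short interval, `p` in `(R, 2R]`, `r ≤ M` or `k ≤ M`: for fixed `r` (or `k`) the points
`(p, k)` (or `(p, r)`) lie near a convex curve.
-/

namespace Pool.Agent.H69.CT

open Finset Classical

open Pool.Agent.H69.CP (class_card dvd_card harm Rough)

theorem third_sum (M : ℕ) : ∑ r ∈ Icc 1 M, 1 / ((r : ℝ) ^ (1 / 3 : ℝ)) ≤ 3 / 2 * ((M : ℝ) ^ (1 / 3 : ℝ)) ^ 2 := by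
  induction M with
  | zero => simp
  | succ n ih =>
    rw [← Finset.insert_Icc_right_eq_Icc_add_one (by omega), sum_insert (by simp)]
    set a := ((n + 1 : ℕ) : ℝ) ^ (1 / 3 : ℝ) with ha
    set b := (n : ℝ) ^ (1 / 3 : ℝ) with hb
    have ha3 : a ^ 3 = (n : ℝ) + 1 := by
      rw [ha, ← Real.rpow_natCast, ← Real.rpow_mul (by positivity)]
      push_cast
      norm_num
    have hb3 : b ^ 3 = (n : ℝ) := by
      rw [hb, ← Real.rpow_natCast, ← Real.rpow_mul (by positivity)]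
      push_cast
      norm_num
    have hb0 : 0 ≤ b := by positivity
    have ha0 : 0 < a := by positivity
    have hba : b ≤ a := Real.rpow_le_rpow (by positivity) (by push_cast; linarith) (by norm_num)
    have h1 : (a - b) * (a ^ 2 + a * b + b ^ 2) = 1 := by
      have : (a - b) * (a ^ 2 + a * b + b ^ 2) = a ^ 3 - b ^ 3 := by ring
      rw [this, ha3, hb3]
      ring
    have h2 : 0 ≤ (a - b) * ((a - b) * (a + 2 * b) / 2) := by
      have : 0 ≤ a - b := by linarith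
      positivity
    have h3 : 1 ≤ 3 / 2 * (a ^ 2 - b ^ 2) * a := by
      have e : 3 / 2 * (a ^ 2 - b ^ 2) * a = (a - b) * (a ^ 2 + a * b + b ^ 2) + (a - b) * ((a - b) * (a + 2 * b) / 2) := by
        ring
      rw [e, h1]
      linarith
    have h4 : 1 / a ≤ 3 / 2 * (a ^ 2 - b ^ 2) := by
      rw [div_le_iff₀ ha0]
      exact h3
    linarith

theorem opt_sq (A δ s a : ℝ) (R S : ℕ) (hs : 0 ≤ s) (hs1 : s ≤ 1) (hδ : 0 ≤ δ) (hA : 0 < A)
    (hδA : 200 * δ * (R : ℝ) ^ 3 ≤ A) (ha1 : 1 ≤ a) (haR : a ≤ R) (ha : a ^ 3 * R = A) (hRS : R ≤ S) (T : Finset ℕ)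
    (hT : ∀ n ∈ T, R < n ∧ n ≤ 2 * R ∧ ∃ v : ℤ, |(v : ℝ) - A / (n * (n + s))| ≤ δ) :
    (T.card : ℝ) ≤ 9 * a + 864 * (δ * R) * (1 + Real.log S) := by
  have ha0 : 0 < a := by linarith
  have hR1 : (1 : ℝ) ≤ R := ha1.trans haR
  have hR0 : (0 : ℝ) < R := by linarith
  have hRa : 1 ≤ (R : ℝ) / a := by rwa [one_le_div ha0]
  set H := ⌊(R : ℝ) / a⌋₊ with hH
  have hH1 : 1 ≤ H := Nat.le_floor (by exact_mod_cast hRa)
  have hHle : (H : ℝ) ≤ R / a := Nat.floor_le (by positivity)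
  have hHge : (R : ℝ) / a ≤ 2 * H := by
    have h1 := Nat.lt_floor_add_one ((R : ℝ) / a)
    rw [← hH] at h1
    have h2 : (1 : ℝ) ≤ H := by exact_mod_cast hH1
    linarith
  have hHR : H ≤ R := by
    have h1 : (R : ℝ) / a ≤ R := div_le_self hR0.le ha1
    exact_mod_cast hHle.trans h1
  have hH0 : (0 : ℝ) < H := by exact_mod_cast hH1
  have key := two_sq A δ s R H hH1 hHR hs hs1 hδ hA hδA T hT
  have b1 : (R : ℝ) / H ≤ 2 * a := by
    rw [div_le_iff₀ hH0]
    rw [div_le_iff₀ ha0] at hHge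
    linarith
  have b2 : 6 * A * (H : ℝ) ^ 2 / (R : ℝ) ^ 3 ≤ 6 * a := by
    rw [div_le_iff₀ (by positivity), ← ha]
    have h1 : (H : ℝ) * a ≤ R := by rwa [le_div_iff₀ ha0] at hHle
    have h2 : ((H : ℝ) * a) ^ 2 ≤ (R : ℝ) ^ 2 := pow_le_pow_left₀ (by positivity) h1 2
    calc 6 * (a ^ 3 * R) * (H : ℝ) ^ 2 = 6 * a * R * ((H : ℝ) * a) ^ 2 := by ring
      _ ≤ 6 * a * R * (R : ℝ) ^ 2 := by gcongr
      _ = 6 * a * (R : ℝ) ^ 3 := by ring
  have b3 : Real.log H ≤ Real.log S := by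
    apply Real.log_le_log hH0
    exact_mod_cast hHR.trans hRS
  have b4 : 864 * δ * R * (1 + Real.log H) ≤ 864 * (δ * R) * (1 + Real.log S) := by
    rw [mul_assoc 864 δ (R : ℝ)]
    gcongr
  linarith

/-- the indices `p` for fixed `r` -/
noncomputable def V1 (x y R r : ℕ) : Finset ℕ := (Ioc R (2 * R)).filter fun p : ℕ =>
      ∃ k : ℕ, 1 ≤ k ∧ x < r * p * (1 + k * p) ∧ r * p * (1 + k * p) ≤ x + y

/-- the indices `p` for fixed `k` -/
noncomputable def V2 (x y R k : ℕ) : Finset ℕ := (Ioc R (2 * R)).filter fun p : ℕ =>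
      ∃ r : ℕ, 1 ≤ r ∧ x < r * p * (1 + k * p) ∧ r * p * (1 + k * p) ≤ x + y

section

variable (x y R S : ℕ) (hx : 1 ≤ x) (hR : 1 ≤ R) (hR4 : x ≤ R ^ 4) (hRS : R ≤ S)

include hx hR hR4 in
theorem a_facts (r : ℕ) (hr : 1 ≤ r) (hrx : r * R ≤ x) (a : ℝ) (ha : a = ((x : ℝ) / (r * R)) ^ (1 / 3 : ℝ)) :
    1 ≤ a ∧ a ≤ R ∧ a ^ 3 * R = x / r := by
  have hr0 : (0 : ℝ) < r := by exact_mod_cast hr
  have hr1 : (1 : ℝ) ≤ r := by exact_mod_cast hr
  have hR0 : (0 : ℝ) < R := by exact_mod_cast hR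
  have hx0 : (0 : ℝ) < x := by exact_mod_cast hx
  have hq : 1 ≤ (x : ℝ) / (r * R) := by
    rw [one_le_div (by positivity)]
    exact_mod_cast hrx
  have ha3 : a ^ 3 = (x : ℝ) / (r * R) := by
    rw [ha, ← Real.rpow_natCast, ← Real.rpow_mul (by positivity)]
    push_cast
    norm_num
  have ha0 : 0 ≤ a := by rw [ha]; positivity
  refine ⟨by rw [ha]; exact Real.one_le_rpow hq (by norm_num), ?_, ?_⟩
  · have h1 : a ^ 3 ≤ (R : ℝ) ^ 3 := by
      rw [ha3, div_le_iff₀ (by positivity)]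
      have h2 : (x : ℝ) ≤ (R : ℝ) ^ 4 := by exact_mod_cast hR4
      calc (x : ℝ) ≤ (R : ℝ) ^ 4 := h2
        _ = (R : ℝ) ^ 3 * (1 * R) := by ring
        _ ≤ (R : ℝ) ^ 3 * (r * R) := by gcongr
    exact le_of_pow_le_pow_left₀ (by norm_num) hR0.le h1
  · rw [ha3]; field_simp

include hx hR hR4 hRS in
theorem V1_card (r : ℕ) (hr : 1 ≤ r) (hsm : 200 * (y * R + r * R ^ 2) ≤ x) :
    ((V1 x y R r).card : ℝ) ≤ 9 * ((x : ℝ) / (r * R)) ^ (1 / 3 : ℝ) + 864 * (y / (r * R) + 1) * (1 + Real.log S) := by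
  have hr0 : (0 : ℝ) < r := by exact_mod_cast hr
  have hR0 : (0 : ℝ) < R := by exact_mod_cast hR
  have hx0 : (0 : ℝ) < x := by exact_mod_cast hx
  have hrx : r * R ≤ x := by nlinarith [Nat.mul_le_mul_left (r * R) hR, Nat.zero_le (y * R)]
  obtain ⟨a1, a2, a3⟩ := a_facts x R hx hR hR4 r hr hrx _ rfl
  have hsm' : 200 * ((y : ℝ) * R + r * R ^ 2) ≤ x := by exact_mod_cast hsm
  have e : ((y : ℝ) / (r * R ^ 2) + 1 / R) * R = y / (r * R) + 1 := by field_simp
  rw [← e]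
  apply opt_sq (x / r) ((y : ℝ) / (r * R ^ 2) + 1 / R) 0 _ R S le_rfl zero_le_one (by positivity) (by positivity) ?_
    a1 a2 a3 hRS
  · intro p hp
    unfold V1 at hp
    rw [mem_filter, mem_Ioc] at hp
    obtain ⟨⟨hp1, hp2⟩, k, hk, hk1, hk2⟩ := hp
    refine ⟨hp1, hp2, (k : ℤ), ?_⟩
    have hpR : (R : ℝ) ≤ p := by exact_mod_cast hp1.le
    have hp0 : (0 : ℝ) < p := by linarith
    have hk1' : (x : ℝ) ≤ r * p * (1 + k * p) := by exact_mod_cast hk1.le
    have hk2' : (r : ℝ) * p * (1 + k * p) ≤ x + y := by exact_mod_cast hk2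
    have f1 : (x : ℝ) / r / (p * (p + 0)) = x / (r * p ^ 2) := by
      rw [add_zero]; field_simp
    rw [f1, abs_le]
    have f2 : (y : ℝ) / (r * p ^ 2) ≤ y / (r * R ^ 2) := by gcongr
    have f3 : (1 : ℝ) / p ≤ 1 / R := by gcongr
    have f4 : (0 : ℝ) ≤ y / (r * R ^ 2) := by positivity
    have f5 : (0 : ℝ) ≤ 1 / R := by positivity
    push_cast
    constructor
    · have f6 : (x : ℝ) / (r * p ^ 2) ≤ k + 1 / p := by
        rw [div_le_iff₀ (by positivity)]
        have : ((k : ℝ) + 1 / p) * (r * p ^ 2) = r * p * (1 + k * p) := by field_simp; ring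
        rw [this]
        exact hk1'
      linarith
    · have f6 : (k : ℝ) ≤ ((x : ℝ) + y) / (r * p ^ 2) := by
        rw [le_div_iff₀ (by positivity)]
        nlinarith [mul_pos hr0 hp0]
      rw [add_div] at f6
      linarith
  · have : 200 * ((y : ℝ) / (r * R ^ 2) + 1 / R) * (R : ℝ) ^ 3 = 200 * ((y : ℝ) * R + r * R ^ 2) / r := by
      field_simp
    rw [this]
    gcongr

include hx hR hR4 hRS in
theorem V2_card (k : ℕ) (hk : 1 ≤ k) (hsm : 200 * (y * R + k * R ^ 2) ≤ x) :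
    ((V2 x y R k).card : ℝ) ≤ 9 * ((x : ℝ) / (k * R)) ^ (1 / 3 : ℝ) + 864 * (y / (k * R) + 1) * (1 + Real.log S) := by
  have hr0 : (0 : ℝ) < k := by exact_mod_cast hk
  have hr1 : (1 : ℝ) ≤ k := by exact_mod_cast hk
  have hR0 : (0 : ℝ) < R := by exact_mod_cast hR
  have hx0 : (0 : ℝ) < x := by exact_mod_cast hx
  have hrx : k * R ≤ x := by nlinarith [Nat.mul_le_mul_left (k * R) hR, Nat.zero_le (y * R)]
  obtain ⟨a1, a2, a3⟩ := a_facts x R hx hR hR4 k hk hrx _ rfl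
  have hsm' : 200 * ((y : ℝ) * R + k * R ^ 2) ≤ x := by exact_mod_cast hsm
  have e : ((y : ℝ) / (k * R ^ 2)) * R = y / (k * R) := by field_simp
  have hS1 : (1 : ℝ) ≤ S := by exact_mod_cast hR.trans hRS
  have hlog : 0 ≤ Real.log S := Real.log_nonneg hS1
  have key : ((V2 x y R k).card : ℝ) ≤ 9 * ((x : ℝ) / (k * R)) ^ (1 / 3 : ℝ) + 864 * (((y : ℝ) / (k * R ^ 2)) * R) *
      (1 + Real.log S) := by
    apply opt_sq (x / k) ((y : ℝ) / (k * R ^ 2)) (1 / k) _ R S (by positivity)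
      (by rw [div_le_one hr0]; exact hr1) (by positivity) (by positivity) ?_ a1 a2 a3 hRS
    · intro p hp
      unfold V2 at hp
      rw [mem_filter, mem_Ioc] at hp
      obtain ⟨⟨hp1, hp2⟩, r, hr, hk1, hk2⟩ := hp
      refine ⟨hp1, hp2, (r : ℤ), ?_⟩
      have hpR : (R : ℝ) ≤ p := by exact_mod_cast hp1.le
      have hp0 : (0 : ℝ) < p := by linarith
      have hk1' : (x : ℝ) ≤ r * p * (1 + k * p) := by exact_mod_cast hk1.le
      have hk2' : (r : ℝ) * p * (1 + k * p) ≤ x + y := by exact_mod_cast hk2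
      have f1 : (x : ℝ) / k / (p * (p + 1 / k)) = x / (p * (1 + k * p)) := by
        field_simp; ring
      rw [f1, abs_le]
      have f2 : (y : ℝ) / (p * (1 + k * p)) ≤ y / (k * R ^ 2) := by
        apply div_le_div_of_nonneg_left (by positivity) (by positivity)
        have : (R : ℝ) ^ 2 ≤ p ^ 2 := by gcongr
        nlinarith
      have f4 : (0 : ℝ) ≤ y / (k * R ^ 2) := by positivity
      push_cast
      constructor
      · have f6 : (x : ℝ) / (p * (1 + k * p)) ≤ r := by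
          rw [div_le_iff₀ (by positivity)]
          linarith
        linarith
      · have f6 : (r : ℝ) ≤ ((x : ℝ) + y) / (p * (1 + k * p)) := by
          rw [le_div_iff₀ (by positivity)]
          linarith
        rw [add_div] at f6
        linarith
    · have h1 : 200 * ((y : ℝ) / (k * R ^ 2)) * (R : ℝ) ^ 3 = 200 * ((y : ℝ) * R) / k := by
        field_simp
      rw [h1]
      have h2 : 0 ≤ (k : ℝ) * R ^ 2 := by positivity
      gcongr
      linarith
  rw [e] at key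
  have h3 : 864 * ((y : ℝ) / (k * R)) * (1 + Real.log S) ≤ 864 * (y / (k * R) + 1) * (1 + Real.log S) := by
    gcongr
    linarith
  linarith

/-- numbers `r p (1 + k p)` with `p` in `(R, 2R]` and `r ≤ M` or `k ≤ M` -/
noncomputable def F (x y R M : ℕ) : Finset ℕ := (Ioc x (x + y)).filter fun m =>
  ∃ p r k : ℕ, R < p ∧ p ≤ 2 * R ∧ 1 ≤ r ∧ 1 ≤ k ∧ (r ≤ M ∨ k ≤ M) ∧ m = r * p * (1 + k * p)

theorem F_sub (M : ℕ) : F x y R M ⊆
    ((Icc 1 M).biUnion fun r => (V1 x y R r).biUnion fun p =>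
      (Ioc x (x + y)).filter fun m => m % (r * p ^ 2) = (r * p) % (r * p ^ 2)) ∪
    ((Icc 1 M).biUnion fun k => (V2 x y R k).biUnion fun p => (Ioc x (x + y)).filter fun m => p * (1 + k * p) ∣ m) := by
  intro m hm
  unfold F at hm
  rw [mem_filter, mem_Ioc] at hm
  obtain ⟨⟨hm1, hm2⟩, p, r, k, hp1, hp2, hr, hk, hor, hmr⟩ := hm
  rw [mem_union]
  rcases hor with h | h
  · left
    rw [mem_biUnion]
    refine ⟨r, mem_Icc.2 ⟨hr, h⟩, ?_⟩
    rw [mem_biUnion]
    refine ⟨p, ?_, ?_⟩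
    · unfold V1
      rw [mem_filter, mem_Ioc]
      exact ⟨⟨hp1, hp2⟩, k, hk, by rw [← hmr]; exact hm1, by rw [← hmr]; exact hm2⟩
    · rw [mem_filter, mem_Ioc]
      refine ⟨⟨hm1, hm2⟩, ?_⟩
      have : m = r * p + r * p ^ 2 * k := by rw [hmr]; ring
      rw [this, Nat.add_mul_mod_self_left]
  · right
    rw [mem_biUnion]
    refine ⟨k, mem_Icc.2 ⟨hk, h⟩, ?_⟩
    rw [mem_biUnion]
    refine ⟨p, ?_, ?_⟩
    · unfold V2
      rw [mem_filter, mem_Ioc]
      exact ⟨⟨hp1, hp2⟩, r, hr, by rw [← hmr]; exact hm1, by rw [← hmr]; exact hm2⟩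
    · rw [mem_filter, mem_Ioc]
      refine ⟨⟨hm1, hm2⟩, ⟨r, ?_⟩⟩
      rw [hmr]; ring

include hx hR hR4 hRS in
theorem F_card (M : ℕ) (hyR : y ≤ R ^ 2) (hMR : M * R ≤ S) (hSx : S * S ≤ 2 * x)
    (hsm : 200 * (y * R + M * R ^ 2) ≤ x) :
    ((F x y R M).card : ℝ) ≤ 35 * ((x : ℝ) ^ (2 / 3 : ℝ) / R) +
      1728 * (1 + Real.log S) * ((1 + Real.log S) * (y / R) + S / R) := by
  have hR0 : (0 : ℝ) < R := by exact_mod_cast hR
  have hx0 : (0 : ℝ) < x := by exact_mod_cast hx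
  have hSn : 1 ≤ S := hR.trans hRS
  have hS1 : (1 : ℝ) ≤ S := by exact_mod_cast hSn
  have hlog : 0 ≤ Real.log S := Real.log_nonneg hS1
  set Λ := 1 + Real.log S with hΛ
  have hΛ1 : 1 ≤ Λ := by linarith
  have hyR' : (y : ℝ) ≤ (R : ℝ) ^ 2 := by exact_mod_cast hyR
  have hMS : M ≤ S := le_trans (Nat.le_mul_of_pos_right M (by omega)) hMR
  set X := ((x : ℝ) / R) ^ (1 / 3 : ℝ) with hX
  have hterm : ∀ r : ℕ, 1 ≤ r → 9 * ((x : ℝ) / (r * R)) ^ (1 / 3 : ℝ) + 864 * (y / (r * R) + 1) * Λ =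
      9 * X * (1 / (r : ℝ) ^ (1 / 3 : ℝ)) + (864 * (y / R) * Λ * (1 / (r : ℝ)) + 864 * Λ) := by
    intro r hr
    have hr0 : (0 : ℝ) < r := by exact_mod_cast hr
    have h1 : ((x : ℝ) / (r * R)) ^ (1 / 3 : ℝ) = X * (1 / (r : ℝ) ^ (1 / 3 : ℝ)) := by
      rw [hX, show (x : ℝ) / (r * R) = (x / R) / r by field_simp, Real.div_rpow (by positivity) (by positivity)]
      ring
    rw [h1]
    field_simp
  have hsum : ∑ r ∈ Icc 1 M, (9 * ((x : ℝ) / (r * R)) ^ (1 / 3 : ℝ) + 864 * (y / (r * R) + 1) * Λ) ≤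
      9 * X * (3 / 2 * ((M : ℝ) ^ (1 / 3 : ℝ)) ^ 2) + (864 * (y / R) * Λ * Λ + 864 * Λ * M) := by
    calc ∑ r ∈ Icc 1 M, (9 * ((x : ℝ) / (r * R)) ^ (1 / 3 : ℝ) + 864 * (y / (r * R) + 1) * Λ)
        = ∑ r ∈ Icc 1 M, (9 * X * (1 / (r : ℝ) ^ (1 / 3 : ℝ)) + (864 * (y / R) * Λ * (1 / (r : ℝ)) + 864 * Λ)) :=
          sum_congr rfl fun r hr => hterm r (mem_Icc.1 hr).1
      _ = 9 * X * (∑ r ∈ Icc 1 M, 1 / (r : ℝ) ^ (1 / 3 : ℝ)) +
          (864 * (y / R) * Λ * (∑ r ∈ Icc 1 M, 1 / (r : ℝ)) + 864 * Λ * M) := by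
          rw [sum_add_distrib, sum_add_distrib, ← mul_sum, ← mul_sum, sum_const, Nat.card_Icc, Nat.add_sub_cancel,
            nsmul_eq_mul]
          ring
      _ ≤ _ := by
          have h1 := third_sum M
          have h2 : ∑ r ∈ Icc 1 M, 1 / (r : ℝ) ≤ Λ := by
            refine le_trans ?_ (harm S)
            apply sum_le_sum_of_subset_of_nonneg
            · exact Icc_subset_Icc_right hMS
            · intro r _ _
              positivity
          gcongr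
  have hsmr : ∀ r ∈ Icc 1 M, 200 * (y * R + r * R ^ 2) ≤ x := by
    intro r hr
    refine le_trans ?_ hsm
    have := (mem_Icc.1 hr).2
    gcongr
  have p1 : ((((Icc 1 M).biUnion fun r => (V1 x y R r).biUnion fun p =>
      (Ioc x (x + y)).filter fun m => m % (r * p ^ 2) = (r * p) % (r * p ^ 2)).card : ℕ) : ℝ) ≤
      9 * X * (3 / 2 * ((M : ℝ) ^ (1 / 3 : ℝ)) ^ 2) + (864 * (y / R) * Λ * Λ + 864 * Λ * M) := by
    refine le_trans ?_ hsum
    calc ((((Icc 1 M).biUnion fun r => (V1 x y R r).biUnion fun p =>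
          (Ioc x (x + y)).filter fun m => m % (r * p ^ 2) = (r * p) % (r * p ^ 2)).card : ℕ) : ℝ)
        ≤ ((∑ r ∈ Icc 1 M, ((V1 x y R r).biUnion fun p =>
          (Ioc x (x + y)).filter fun m => m % (r * p ^ 2) = (r * p) % (r * p ^ 2)).card : ℕ) : ℝ) := by
          exact_mod_cast card_biUnion_le
      _ ≤ ∑ r ∈ Icc 1 M, ((V1 x y R r).card : ℝ) := by
          push_cast
          refine sum_le_sum fun r hr => ?_
          have hr1 := (mem_Icc.1 hr).1
          have hr0 : (0 : ℝ) < r := by exact_mod_cast hr1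
          have hr1' : (1 : ℝ) ≤ r := by exact_mod_cast hr1
          have h1 : ((V1 x y R r).biUnion fun p =>
              (Ioc x (x + y)).filter fun m => m % (r * p ^ 2) = (r * p) % (r * p ^ 2)).card ≤ (V1 x y R r).card * 1 := by
            apply card_biUnion_le_card_mul
            intro p hp
            unfold V1 at hp
            rw [mem_filter, mem_Ioc] at hp
            have hpR : (R : ℝ) < p := by exact_mod_cast hp.1.1
            have hp0 : 0 < p := by omega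
            have hp0R : (0 : ℝ) < p := by exact_mod_cast hp0
            have h2 := class_card x y (r * p ^ 2) (r * p) (by positivity)
            have h3 : (y : ℝ) / ((r * p ^ 2 : ℕ) : ℝ) < 1 := by
              push_cast
              rw [div_lt_one (by positivity)]
              calc (y : ℝ) ≤ (R : ℝ) ^ 2 := hyR'
                _ < (p : ℝ) ^ 2 := pow_lt_pow_left₀ hpR hR0.le (by norm_num)
                _ = 1 * (p : ℝ) ^ 2 := by ring
                _ ≤ r * (p : ℝ) ^ 2 := by gcongr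
            have h4 : (((Ioc x (x + y)).filter fun m => m % (r * p ^ 2) = (r * p) % (r * p ^ 2)).card : ℝ) < 2 := by
              linarith
            have h5 : ((Ioc x (x + y)).filter fun m => m % (r * p ^ 2) = (r * p) % (r * p ^ 2)).card < 2 := by
              exact_mod_cast h4
            omega
          rw [mul_one] at h1
          exact_mod_cast h1
      _ ≤ _ := sum_le_sum fun r hr => V1_card x y R S hx hR hR4 hRS r (mem_Icc.1 hr).1 (hsmr r hr)
  have p2 : ((((Icc 1 M).biUnion fun k => (V2 x y R k).biUnion fun p =>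
      (Ioc x (x + y)).filter fun m => p * (1 + k * p) ∣ m).card : ℕ) : ℝ) ≤
      9 * X * (3 / 2 * ((M : ℝ) ^ (1 / 3 : ℝ)) ^ 2) + (864 * (y / R) * Λ * Λ + 864 * Λ * M) := by
    refine le_trans ?_ hsum
    calc ((((Icc 1 M).biUnion fun k => (V2 x y R k).biUnion fun p =>
          (Ioc x (x + y)).filter fun m => p * (1 + k * p) ∣ m).card : ℕ) : ℝ)
        ≤ ((∑ k ∈ Icc 1 M, ((V2 x y R k).biUnion fun p =>
          (Ioc x (x + y)).filter fun m => p * (1 + k * p) ∣ m).card : ℕ) : ℝ) := by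
          exact_mod_cast card_biUnion_le
      _ ≤ ∑ k ∈ Icc 1 M, ((V2 x y R k).card : ℝ) := by
          push_cast
          refine sum_le_sum fun k hk => ?_
          have hr1 := (mem_Icc.1 hk).1
          have hr0 : (0 : ℝ) < k := by exact_mod_cast hr1
          have hr1' : (1 : ℝ) ≤ k := by exact_mod_cast hr1
          have h1 : ((V2 x y R k).biUnion fun p =>
              (Ioc x (x + y)).filter fun m => p * (1 + k * p) ∣ m).card ≤ (V2 x y R k).card * 1 := by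
            apply card_biUnion_le_card_mul
            intro p hp
            unfold V2 at hp
            rw [mem_filter, mem_Ioc] at hp
            have hpR : (R : ℝ) < p := by exact_mod_cast hp.1.1
            have hp0 : 0 < p := by omega
            have hp0R : (0 : ℝ) < p := by exact_mod_cast hp0
            have h2 := dvd_card x y (p * (1 + k * p)) (by positivity)
            have h3 : (y : ℝ) / ((p * (1 + k * p) : ℕ) : ℝ) < 1 := by
              push_cast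
              rw [div_lt_one (by positivity)]
              calc (y : ℝ) ≤ (R : ℝ) ^ 2 := hyR'
                _ < (p : ℝ) ^ 2 := pow_lt_pow_left₀ hpR hR0.le (by norm_num)
                _ ≤ p * (1 + k * p) := by nlinarith
            have h4 : (((Ioc x (x + y)).filter fun m => p * (1 + k * p) ∣ m).card : ℝ) < 2 := by
              linarith
            have h5 : ((Ioc x (x + y)).filter fun m => p * (1 + k * p) ∣ m).card < 2 := by
              exact_mod_cast h4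
            omega
          rw [mul_one] at h1
          exact_mod_cast h1
      _ ≤ _ := sum_le_sum fun k hk => V2_card x y R S hx hR hR4 hRS k (mem_Icc.1 hk).1 (hsmr k hk)
  have h := (card_le_card (F_sub x y R M)).trans (card_union_le _ _)
  have h' : ((F x y R M).card : ℝ) ≤ ((((Icc 1 M).biUnion fun r => (V1 x y R r).biUnion fun p =>
      (Ioc x (x + y)).filter fun m => m % (r * p ^ 2) = (r * p) % (r * p ^ 2)).card : ℕ) : ℝ) +
      ((((Icc 1 M).biUnion fun k => (V2 x y R k).biUnion fun p =>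
      (Ioc x (x + y)).filter fun m => p * (1 + k * p) ∣ m).card : ℕ) : ℝ) := by exact_mod_cast h
  have hMR' : (M : ℝ) ≤ S / R := by
    rw [le_div_iff₀ hR0]
    exact_mod_cast hMR
  have hX3 : X * ((M : ℝ) ^ (1 / 3 : ℝ)) ^ 2 ≤ 1.27 * ((x : ℝ) ^ (2 / 3 : ℝ) / R) := by
    have e1 : X ^ 3 = x / R := by
      rw [hX, ← Real.rpow_natCast, ← Real.rpow_mul (by positivity)]
      push_cast
      norm_num
    have e2 : ((M : ℝ) ^ (1 / 3 : ℝ)) ^ 3 = M := by
      rw [← Real.rpow_natCast, ← Real.rpow_mul (by positivity)]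
      push_cast
      norm_num
    have e3 : ((x : ℝ) ^ (2 / 3 : ℝ)) ^ 3 = (x : ℝ) ^ 2 := by
      rw [← Real.rpow_natCast, ← Real.rpow_mul (by positivity), ← Real.rpow_natCast]
      congr 1
      push_cast
      norm_num
    have e4 : (X * ((M : ℝ) ^ (1 / 3 : ℝ)) ^ 2) ^ 3 = (x : ℝ) / R * (M : ℝ) ^ 2 := by
      have e7 : (X * ((M : ℝ) ^ (1 / 3 : ℝ)) ^ 2) ^ 3 = X ^ 3 * (((M : ℝ) ^ (1 / 3 : ℝ)) ^ 3) ^ 2 := by
        generalize (M : ℝ) ^ (1 / 3 : ℝ) = Y
        ring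
      rw [e7, e1, e2]
    have e5 : (1.27 * ((x : ℝ) ^ (2 / 3 : ℝ) / R)) ^ 3 = 1.27 ^ 3 * ((x : ℝ) ^ 2 / R ^ 3) := by
      rw [mul_pow, div_pow, e3]
    have e6 : (x : ℝ) / R * M ^ 2 ≤ 1.27 ^ 3 * ((x : ℝ) ^ 2 / R ^ 3) := by
      have h1 : (M : ℝ) ^ 2 ≤ (S / R) ^ 2 := pow_le_pow_left₀ (by positivity) hMR' 2
      have h2 : (S : ℝ) ^ 2 ≤ 2 * x := by
        rw [sq]; exact_mod_cast hSx
      calc (x : ℝ) / R * M ^ 2 ≤ (x : ℝ) / R * (S / R) ^ 2 := by gcongr
        _ = x / R ^ 3 * (S : ℝ) ^ 2 := by field_simp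
        _ ≤ x / R ^ 3 * (2 * x) := by gcongr
        _ = 2 * ((x : ℝ) ^ 2 / R ^ 3) := by ring
        _ ≤ 1.27 ^ 3 * ((x : ℝ) ^ 2 / R ^ 3) := by
          gcongr
          norm_num
    apply le_of_pow_le_pow_left₀ (n := 3) (by norm_num) (by positivity)
    rw [e4, e5]
    exact e6
  have q1 : 864 * Λ * M ≤ 864 * Λ * (S / R) := by gcongr
  have q0 : 0 ≤ (x : ℝ) ^ (2 / 3 : ℝ) / R := by positivity
  have q2 : 9 * X * (3 / 2 * ((M : ℝ) ^ (1 / 3 : ℝ)) ^ 2) = 13.5 * (X * ((M : ℝ) ^ (1 / 3 : ℝ)) ^ 2) := by ring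
  have q3 : 1728 * Λ * (Λ * (y / R) + S / R) = 2 * (864 * (y / R) * Λ * Λ + 864 * Λ * (S / R)) := by ring
  rw [q3]
  rw [q2] at p1 p2
  linarith

end

end Pool.Agent.H69.CT
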